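import Mathlib

/-!
Definitions for the Fourier support of distributions on the real Grassmannian `Gr_k(ℝ^n)`.
-/

open scoped Matrix.Norms.Elementwise ContDiff Topology
open Matrix

namespace Pool.Agent.H.MP_57d9fd_an

/-- The Grassmannian `Gr_k(ℝ^n)` as a compact submanifold of the space of real `n × n` matrices:
a `k`-dimensional subspace is identified with the matrix of the orthogonal projection onto it. -/
def Gr (n k : ℕ) : Set (Matrix (Fin n) (Fin n) ℝ) :=
  {P | Pᵀ = P ∧ P * P = P ∧ P.trace = k}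

/-- Smooth complex-valued functions on the space of real `n × n` matrices. Restricting them to
`Gr n k` gives all smooth complex-valued functions on the Grassmannian. -/
def Sm (n : ℕ) : Subalgebra ℂ (Matrix (Fin n) (Fin n) ℝ → ℂ) where
  carrier := {φ | ContDiff ℝ ∞ φ}
  mul_mem' := by
    intro a b h₁ h₂
    change ContDiff ℝ ∞ _ at h₁ h₂ ⊢
    exact h₁.mul h₂
  add_mem' := by
    intro a b h₁ h₂
    change ContDiff ℝ ∞ _ at h₁ h₂ ⊢
    exact h₁.add h₂
  algebraMap_mem' := by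
    intro r
    change ContDiff ℝ ∞ _
    exact contDiff_const

/-- A generalized function (distribution) on `Gr_k(ℝ^n)`: a linear functional on smooth functions
that depends only on the restriction to the Grassmannian and is continuous (it is bounded by the
derivatives up to some order `N` along the Grassmannian). Generalized functions are paired with
smooth functions by means of the `O(n)`-invariant measure. -/
structure GrDistribution (n k : ℕ) where
  /-- the underlying linear functional -/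
  toFun : Sm n →ₗ[ℂ] ℂ
  /-- it depends only on the restriction of the test function to the Grassmannian -/
  eq_zero_of_restrict : ∀ φ : Sm n, (∀ P ∈ Gr n k, (φ : Matrix (Fin n) (Fin n) ℝ → ℂ) P = 0) →
    toFun φ = 0
  /-- continuity -/
  continuous : ∃ (N : ℕ) (C : ℝ), ∀ (φ : Sm n) (b : ℝ),
    (∀ P ∈ Gr n k, ∀ i ≤ N,
      ‖iteratedFDeriv ℝ i (φ : Matrix (Fin n) (Fin n) ℝ → ℂ) P‖ ≤ b) → ‖toFun φ‖ ≤ C * b

/-- The distribution `T` is supported in the set `F`: it vanishes on the smooth functions that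
are zero in a neighbourhood of `F`. -/
def GrDistribution.SupportedIn {n k : ℕ} (T : GrDistribution n k)
    (F : Set (Matrix (Fin n) (Fin n) ℝ)) : Prop :=
  ∀ φ : Sm n, (∀ x ∈ F, (φ : Matrix (Fin n) (Fin n) ℝ → ℂ) =ᶠ[𝓝 x] 0) → T.toFun φ = 0

/-- The action of a matrix `g ∈ O(n)` on functions of `P`: `(g • φ)(P) = φ(g⁻¹ P g)`. -/
def act {n : ℕ} (g : Matrix (Fin n) (Fin n) ℝ) (φ : Sm n) : Sm n :=
  ⟨fun P => (φ : Matrix (Fin n) (Fin n) ℝ → ℂ) (gᵀ * P * g), by
    have h : ContDiff ℝ ∞ (φ : Matrix (Fin n) (Fin n) ℝ → ℂ) := φ.2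
    have h2 : ContDiff ℝ ∞ (fun P : Matrix (Fin n) (Fin n) ℝ => gᵀ * P * g) := by
      let L : Matrix (Fin n) (Fin n) ℝ →ₗ[ℝ] Matrix (Fin n) (Fin n) ℝ :=
        (LinearMap.mulRight ℝ g).comp (LinearMap.mulLeft ℝ gᵀ)
      exact (LinearMap.toContinuousLinearMap L).contDiff
    exact h.comp h2⟩

/-- The derived action of `X ∈ 𝔤𝔩(n, ℂ)` (used for `X ∈ 𝔰𝔬(n, ℂ)`) on functions of `P`: the
derivative of `φ` at `P` in the direction `P X - X P`, extended complex linearly in `X`. -/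
noncomputable def lieD {n : ℕ} (X : Matrix (Fin n) (Fin n) ℂ)
    (φ : Matrix (Fin n) (Fin n) ℝ → ℂ) (P : Matrix (Fin n) (Fin n) ℝ) : ℂ :=
  fderiv ℝ φ P (P * X.map Complex.re - X.map Complex.re * P) +
    Complex.I * fderiv ℝ φ P (P * X.map Complex.im - X.map Complex.im * P)

/-- The isotropic vector `z_a = e_{2a} + i e_{2a+1}` of `ℂ^n`. -/
noncomputable def zv (n a : ℕ) : Fin n → ℂ :=
  fun p => if (p : ℕ) = 2 * a then 1 else if (p : ℕ) = 2 * a + 1 then Complex.I else 0

/-- `u ∧ v = u vᵀ - v uᵀ`, an element of `𝔰𝔬(n, ℂ)`. -/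
def wedge {n : ℕ} (u v : Fin n → ℂ) : Matrix (Fin n) (Fin n) ℂ :=
  Matrix.vecMulVec u v - Matrix.vecMulVec v u

/-- `φ` restricts to a highest weight vector of weight `(lam 0, lam 1, …)` on `Gr_k(ℝ^n)`.
The Cartan subalgebra of `𝔰𝔬(n, ℂ)` is spanned by the `H_a = ½ z_a ∧ conj z_a`, which has
`H_a z_a = z_a`, and the nilradical of the Borel subalgebra stabilising the isotropic flag
`⟨z_0⟩ ⊂ ⟨z_0, z_1⟩ ⊂ …` is spanned by the `z_a ∧ v` with `v` orthogonal to `z_0, …, z_a`. -/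
def IsHighestWeight (n k : ℕ) (lam : ℕ → ℕ) (φ : Sm n) : Prop :=
  (∀ a, 2 * a + 1 < n → ∀ P ∈ Gr n k,
    lieD ((1 / 2 : ℂ) • wedge (zv n a) (star (zv n a))) φ P
      = (lam a : ℂ) * (φ : Matrix (Fin n) (Fin n) ℝ → ℂ) P) ∧
  (∀ a, 2 * a + 1 < n → ∀ v : Fin n → ℂ, (∀ b ≤ a, zv n b ⬝ᵥ v = 0) → ∀ P ∈ Gr n k,
    lieD (wedge (zv n a) v) φ P = 0)

/-- `κ = min(k, n - k)`. -/
def kap (n k : ℕ) : ℕ := min k (n - k)

/-- The set `Λ_κ` of highest weights: `λ_1 ≥ … ≥ λ_κ ≥ 0`, all even. -/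
def Lam (κ : ℕ) : Set (Fin κ → ℕ) := {lam | Antitone lam ∧ ∀ i, Even (lam i)}

/-- Extension of a weight by zeros. -/
def extend {κ : ℕ} (lam : Fin κ → ℕ) : ℕ → ℕ := fun a => if h : a < κ then lam ⟨a, h⟩ else 0

/-- The isotypic component `V_λ` of highest weight `λ` in the smooth functions on `Gr_k(ℝ^n)`:
the span of the `O(n)`-translates of the highest weight vectors of weight `λ`. -/
def isotypic (n k : ℕ) (lam : ℕ → ℕ) : Submodule ℂ (Sm n) :=
  Submodule.span ℂ {ψ | ∃ g ∈ Matrix.orthogonalGroup (Fin n) ℝ, ∃ φ : Sm n,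
    IsHighestWeight n k lam φ ∧ ψ = act g φ}

/-- The Fourier support of `T`: the `λ ∈ Λ_κ` for which the projection of `T` to the
`λ`-isotypic component is nonzero, i.e. `T` does not vanish on the (self-conjugate) space
`V_λ`. -/
def fourierSupport {n k : ℕ} (T : GrDistribution n k) : Set (Fin (kap n k) → ℕ) :=
  {lam | lam ∈ Lam (kap n k) ∧ ∃ ψ ∈ isotypic n k (extend lam), T.toFun ψ ≠ 0}

end Pool.Agent.H.MP_57d9fd_an
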