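import Mathlib

/-! Singular value decomposition with orthonormal systems of prescribed length. -/

open Module LinearMap

namespace Pool.Agent.H.MP_57d9fd_an

lemma svd {E F : Type*} [NormedAddCommGroup E] [InnerProductSpace ℝ E] [FiniteDimensional ℝ E]
    [NormedAddCommGroup F] [InnerProductSpace ℝ F] [FiniteDimensional ℝ F] (A : E →ₗ[ℝ] F) (κ : ℕ)
    (hE : κ ≤ finrank ℝ E) (hF : κ ≤ finrank ℝ F) (hr : finrank ℝ A.range ≤ κ) :
    ∃ (b : Fin κ → E) (a : Fin κ → F) (σ : Fin κ → ℝ), Orthonormal ℝ b ∧ Orthonormal ℝ a ∧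
      ∀ x, A x = ∑ s, (σ s * inner ℝ (b s) x) • a s := by
  set m := finrank ℝ E with hm
  set r := finrank ℝ A.range with hrdef
  have hS := A.isSymmetric_adjoint_comp_self
  let e : OrthonormalBasis (Fin m) ℝ E := hS.eigenvectorBasis rfl
  have hAA : ∀ i j : Fin m, inner ℝ (A (e i)) (A (e j))
      = A.singularValues i ^ 2 * inner ℝ (e i) (e j) := by
    intro i j
    have h1 : inner ℝ (A (e i)) (A (e j)) = inner ℝ ((adjoint A ∘ₗ A) (e i)) (e j) := by
      rw [LinearMap.comp_apply, LinearMap.adjoint_inner_left]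
    rw [h1]
    have h2 : (adjoint A ∘ₗ A) (e i) = A.singularValues i ^ 2 • e i := by
      have := hS.apply_eigenvectorBasis rfl i
      rw [A.sq_singularValues_fin rfl i]
      exact this
    rw [h2, inner_smul_left]
    simp
  have hee : ∀ i j : Fin m, inner ℝ (e i) (e j) = if i = j then (1 : ℝ) else 0 := by
    intro i j
    exact orthonormal_iff_ite.1 e.orthonormal i j
  have hzero : ∀ i : Fin m, r ≤ i → A (e i) = 0 := by
    intro i hi
    have h1 : A.singularValues i = 0 := A.singularValues_eq_zero_iff_le_finrank_range.2 hi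
    have h2 := hAA i i
    rw [h1] at h2
    have h3 : inner ℝ (A (e i)) (A (e i)) = 0 := by rw [h2]; ring
    exact inner_self_eq_zero.1 h3
  let v : Fin (finrank ℝ F) → F := fun i =>
    if h : (i : ℕ) < m then (A.singularValues i)⁻¹ • A (e ⟨i, h⟩) else 0
  let s : Set (Fin (finrank ℝ F)) := {i | (i : ℕ) < r}
  have hrm : r ≤ m := hr.trans hE
  have hv : Orthonormal ℝ (s.domRestrict v) := by
    rw [orthonormal_iff_ite]
    rintro ⟨i, hi⟩ ⟨j, hj⟩
    have hi' : (i : ℕ) < r := hi
    have hj' : (j : ℕ) < r := hj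
    have hσi : A.singularValues i ≠ 0 :=
      (A.singularValues_pos_iff_ne_zero _).1 (A.singularValues_pos_iff_lt_finrank_range.2 hi')
    have hσj : A.singularValues j ≠ 0 :=
      (A.singularValues_pos_iff_ne_zero _).1 (A.singularValues_pos_iff_lt_finrank_range.2 hj')
    change inner ℝ (v i) (v j) = _
    have hvi : v i = (A.singularValues i)⁻¹ • A (e ⟨i, hi'.trans_le hrm⟩) :=
      dif_pos (hi'.trans_le hrm)
    have hvj : v j = (A.singularValues j)⁻¹ • A (e ⟨j, hj'.trans_le hrm⟩) :=
      dif_pos (hj'.trans_le hrm)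
    rw [hvi, hvj, inner_smul_left, inner_smul_right, hAA, hee]
    by_cases hij : i = j
    · subst hij
      simp only [if_true]
      simp
      field_simp
    · have h1 : ¬ ((⟨i, hi'.trans_le hrm⟩ : Fin m) = ⟨j, hj'.trans_le hrm⟩) := by
        intro h
        apply hij
        have := congrArg Fin.val h
        exact Fin.ext this
      have h2 : ¬ ((⟨i, hi⟩ : s) = ⟨j, hj⟩) := by
        intro h
        exact hij (congrArg Subtype.val h)
      rw [if_neg h1, if_neg h2]
      simp
  obtain ⟨f, hf⟩ := hv.exists_orthonormalBasis_extension_of_card_eq (ι := Fin (finrank ℝ F))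
    (by simp)
  refine ⟨fun s => e (Fin.castLE hE s), fun s => f (Fin.castLE hF s),
    fun s => A.singularValues s, ?_, ?_, ?_⟩
  · exact e.orthonormal.comp _ (Fin.castLE_injective hE)
  · exact f.orthonormal.comp _ (Fin.castLE_injective hF)
  · intro x
    have h1 : A x = ∑ i : Fin m, inner ℝ (e i) x • A (e i) := by
      conv_lhs => rw [← e.sum_repr' x]
      simp
    rw [h1]
    symm
    apply Finset.sum_of_injOn (Fin.castLE hE) (Fin.castLE_injective hE).injOn
    · intro i _; exact Finset.mem_coe.2 (Finset.mem_univ _)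
    · intro i _ hi
      have hκi : κ ≤ (i : ℕ) := by
        by_contra hlt
        push Not at hlt
        exact hi ⟨⟨i, hlt⟩, Finset.mem_coe.2 (Finset.mem_univ _), Fin.ext rfl⟩
      rw [hzero i (hr.trans hκi), smul_zero]
    · intro i _
      beta_reduce
      rcases lt_or_ge (i : ℕ) r with hir | hir
      · have h2 := hf (Fin.castLE hF i) hir
        have hσi : A.singularValues i ≠ 0 :=
          (A.singularValues_pos_iff_ne_zero _).1 (A.singularValues_pos_iff_lt_finrank_range.2 hir)
        have hvi : v (Fin.castLE hF i) = (A.singularValues i)⁻¹ • A (e (Fin.castLE hE i)) := by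
          change dite _ _ _ = _
          rw [dif_pos (show ((Fin.castLE hF i : Fin (finrank ℝ F)) : ℕ) < m from hir.trans_le hrm)]
          rfl
        rw [h2, hvi, smul_smul]
        congr 1
        field_simp
      · have h1 : A.singularValues i = 0 := A.singularValues_eq_zero_iff_le_finrank_range.2 hir
        rw [h1, hzero _ hir]
        simp

end Pool.Agent.H.MP_57d9fd_an
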