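import Mathlib
import Pool.Agent.H.MP_57d9fd_an.Defs
import Pool.Agent.H.MP_57d9fd_an.SVD

/-! Frames adapted to a point of the Grassmannian. -/

open Matrix Module LinearMap

namespace Pool.Agent.H.MP_57d9fd_an

variable {n k : ℕ} {x : Matrix (Fin n) (Fin n) ℝ}

/-- the operator of a matrix on Euclidean space -/
noncomputable abbrev opr (x : Matrix (Fin n) (Fin n) ℝ) :
    EuclideanSpace ℝ (Fin n) →ₗ[ℝ] EuclideanSpace ℝ (Fin n) := Matrix.toLpLin 2 2 x

lemma opr_apply (x : Matrix (Fin n) (Fin n) ℝ) (v : EuclideanSpace ℝ (Fin n)) :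
    opr x v = WithLp.toLp 2 (x *ᵥ v.ofLp) := rfl

lemma opr_idem (hx : x ∈ Gr n k) : opr x ∘ₗ opr x = opr x := by
  have h2 : x * x = x := hx.2.1
  rw [opr, ← Matrix.toLpLin_mul_same, h2]

lemma isProj_opr (hx : x ∈ Gr n k) : IsProj (range (opr x)) (opr x) := by
  rw [LinearMap.isProj_range_iff_isIdempotentElem]
  exact opr_idem hx

lemma finrank_range_opr (hx : x ∈ Gr n k) : finrank ℝ (range (opr x)) = k := by
  have h1 := (isProj_opr hx).trace
  have h2 : LinearMap.trace ℝ _ (opr x) = x.trace := by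
    rw [opr, Matrix.toLpLin_eq_toLin, Matrix.trace_toLin_eq]
  rw [h2, hx.2.2] at h1
  exact_mod_cast h1.symm

lemma finrank_ker_opr (hx : x ∈ Gr n k) : finrank ℝ (ker (opr x)) = n - k := by
  have h1 := (opr x).finrank_range_add_finrank_ker
  rw [finrank_range_opr hx, finrank_euclideanSpace_fin] at h1
  omega

lemma kap_two_le (hk : k ≤ n) : 2 * kap n k ≤ n := by
  unfold kap; omega

/-- even position -/
def pe (hk : k ≤ n) (s : Fin (kap n k)) : Fin n :=
  ⟨2 * (s : ℕ), by have := kap_two_le hk; have := s.2; omega⟩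

/-- odd position -/
def po (hk : k ≤ n) (s : Fin (kap n k)) : Fin n :=
  ⟨2 * (s : ℕ) + 1, by have := kap_two_le hk; have := s.2; omega⟩

lemma inner_eq_dot (u v : EuclideanSpace ℝ (Fin n)) : inner ℝ u v = u.ofLp ⬝ᵥ v.ofLp := by
  rw [PiLp.inner_apply]
  simp only [dotProduct, RCLike.inner_apply, conj_trivial]
  exact Finset.sum_congr rfl fun i _ => mul_comm _ _

lemma exists_frame (hk : k ≤ n) (hx : x ∈ Gr n k) (C : Matrix (Fin n) (Fin n) ℝ) :
    ∃ g ∈ Matrix.orthogonalGroup (Fin n) ℝ, ∃ (a b : Fin (kap n k) → Fin n → ℝ)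
      (σ : Fin (kap n k) → ℝ),
      (∀ s p, g p (pe hk s) = a s p) ∧ (∀ s p, g p (po hk s) = b s p) ∧
      (∀ s, x *ᵥ a s = a s) ∧ (∀ s, x *ᵥ b s = 0) ∧
      (∀ s t, a s ⬝ᵥ a t = if s = t then 1 else 0) ∧ (∀ s t, b s ⬝ᵥ b t = if s = t then 1 else 0) ∧
      (∀ s t, a s ⬝ᵥ b t = 0) ∧
      x * C * (1 - x) = ∑ s, σ s • vecMulVec (a s) (b s) := by
  have hxT : xᵀ = x := hx.1
  have hxx : x * x = x := hx.2.1
  let H := range (opr x)
  let K := ker (opr x)
  have hH : finrank ℝ H = k := finrank_range_opr hx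
  have hK : finrank ℝ K = n - k := finrank_ker_opr hx
  -- the operator `x C` from `K` to `H`
  let A : K →ₗ[ℝ] H := LinearMap.codRestrict H ((opr x ∘ₗ opr C) ∘ₗ K.subtype)
    (fun v => ⟨opr C v, rfl⟩)
  have hA : ∀ v : K, (A v : EuclideanSpace ℝ (Fin n)) = opr x (opr C v) := fun v => rfl
  obtain ⟨b', a', σ, hb', ha', hsvd⟩ := svd A (kap n k) (by rw [hK]; unfold kap; omega)
    (by rw [hH]; unfold kap; omega) (by
      have h1 : finrank ℝ (range A) ≤ finrank ℝ H := Submodule.finrank_le _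
      have h2 : finrank ℝ (range A) ≤ finrank ℝ K := LinearMap.finrank_range_le A
      rw [hH] at h1; rw [hK] at h2
      unfold kap; omega)
  let a : Fin (kap n k) → Fin n → ℝ := fun s => ((a' s : EuclideanSpace ℝ (Fin n))).ofLp
  let b : Fin (kap n k) → Fin n → ℝ := fun s => ((b' s : EuclideanSpace ℝ (Fin n))).ofLp
  have hxa : ∀ s, x *ᵥ a s = a s := by
    intro s
    have h1 : opr x (a' s : EuclideanSpace ℝ (Fin n)) = a' s :=
      (isProj_opr hx).map_id _ (a' s).2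
    have := congrArg (fun v : EuclideanSpace ℝ (Fin n) => v.ofLp) h1
    exact this
  have hxb : ∀ s, x *ᵥ b s = 0 := by
    intro s
    have h1 : opr x (b' s : EuclideanSpace ℝ (Fin n)) = 0 := (b' s).2
    have := congrArg (fun v : EuclideanSpace ℝ (Fin n) => v.ofLp) h1
    exact this
  have haa : ∀ s t, a s ⬝ᵥ a t = if s = t then 1 else 0 := by
    intro s t
    have := orthonormal_iff_ite.1 ha' s t
    rw [← this]
    exact (inner_eq_dot _ _).symm
  have hbb : ∀ s t, b s ⬝ᵥ b t = if s = t then 1 else 0 := by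
    intro s t
    have := orthonormal_iff_ite.1 hb' s t
    rw [← this]
    exact (inner_eq_dot _ _).symm
  have hab : ∀ s t, a s ⬝ᵥ b t = 0 := by
    intro s t
    rw [← hxa s, Matrix.mulVec_eq_sum] 
    have h1 : (x *ᵥ a s) ⬝ᵥ b t = a s ⬝ᵥ (x *ᵥ b t) := by
      rw [Matrix.dotProduct_mulVec, ← Matrix.mulVec_transpose, hxT]
    rw [← Matrix.mulVec_eq_sum, h1, hxb t, dotProduct_zero]
  -- the orthonormal family
  let v : Fin n → EuclideanSpace ℝ (Fin n) := fun i =>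
    if h : (i : ℕ) / 2 < kap n k then
      (if (i : ℕ) % 2 = 0 then (a' ⟨(i : ℕ) / 2, h⟩ : EuclideanSpace ℝ (Fin n))
        else (b' ⟨(i : ℕ) / 2, h⟩ : EuclideanSpace ℝ (Fin n)))
    else 0
  let S : Set (Fin n) := {i | (i : ℕ) / 2 < kap n k}
  have hv : Orthonormal ℝ (S.domRestrict v) := by
    rw [orthonormal_iff_ite]
    rintro ⟨i, hi⟩ ⟨j, hj⟩
    have hi' : (i : ℕ) / 2 < kap n k := hi
    have hj' : (j : ℕ) / 2 < kap n k := hj
    change inner ℝ (v i) (v j) = _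
    have hvi : v i = if (i : ℕ) % 2 = 0 then (a' ⟨(i : ℕ) / 2, hi'⟩ : EuclideanSpace ℝ (Fin n))
        else (b' ⟨(i : ℕ) / 2, hi'⟩ : EuclideanSpace ℝ (Fin n)) := dif_pos hi'
    have hvj : v j = if (j : ℕ) % 2 = 0 then (a' ⟨(j : ℕ) / 2, hj'⟩ : EuclideanSpace ℝ (Fin n))
        else (b' ⟨(j : ℕ) / 2, hj'⟩ : EuclideanSpace ℝ (Fin n)) := dif_pos hj'
    have hiff : ((⟨i, hi⟩ : S) = ⟨j, hj⟩) ↔ i = j := Subtype.mk_eq_mk
    simp only [hiff]
    rw [inner_eq_dot, hvi, hvj]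
    rcases Nat.mod_two_eq_zero_or_one (i : ℕ) with h1 | h1 <;>
      rcases Nat.mod_two_eq_zero_or_one (j : ℕ) with h2 | h2
    · rw [if_pos h1, if_pos h2]
      have := haa ⟨(i : ℕ) / 2, hi'⟩ ⟨(j : ℕ) / 2, hj'⟩
      refine this.trans ?_
      have hiff2 : ((⟨(i : ℕ) / 2, hi'⟩ : Fin (kap n k)) = ⟨(j : ℕ) / 2, hj'⟩) ↔ i = j := by
        rw [Fin.mk.injEq, Fin.ext_iff]; omega
      simp only [hiff2]
    · rw [if_pos h1, if_neg (by omega)]
      have := hab ⟨(i : ℕ) / 2, hi'⟩ ⟨(j : ℕ) / 2, hj'⟩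
      refine this.trans ?_
      rw [if_neg]
      intro h; rw [h] at h1; omega
    · rw [if_neg (by omega), if_pos h2]
      have := hab ⟨(j : ℕ) / 2, hj'⟩ ⟨(i : ℕ) / 2, hi'⟩
      rw [dotProduct_comm] at this
      refine this.trans ?_
      rw [if_neg]
      intro h; rw [h] at h1; omega
    · rw [if_neg (by omega), if_neg (by omega)]
      have := hbb ⟨(i : ℕ) / 2, hi'⟩ ⟨(j : ℕ) / 2, hj'⟩
      refine this.trans ?_
      have hiff2 : ((⟨(i : ℕ) / 2, hi'⟩ : Fin (kap n k)) = ⟨(j : ℕ) / 2, hj'⟩) ↔ i = j := by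
        rw [Fin.mk.injEq, Fin.ext_iff]; omega
      simp only [hiff2]
  obtain ⟨f, hf⟩ := hv.exists_orthonormalBasis_extension_of_card_eq (ι := Fin n) (by simp)
  let g : Matrix (Fin n) (Fin n) ℝ := Matrix.of fun p i => (f i).ofLp p
  have hg : g ∈ Matrix.orthogonalGroup (Fin n) ℝ := by
    rw [Matrix.mem_orthogonalGroup_iff']
    ext i j
    rw [Matrix.mul_apply]
    have h1 := orthonormal_iff_ite.1 f.orthonormal i j
    rw [inner_eq_dot] at h1
    rw [Matrix.one_apply, ← h1]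
    rfl
  refine ⟨g, hg, a, b, σ, ?_, ?_, hxa, hxb, haa, hbb, hab, ?_⟩
  · intro s p
    have hs : (pe hk s : ℕ) / 2 < kap n k := by
      have := s.2
      change 2 * (s : ℕ) / 2 < _
      omega
    have h1 := hf (pe hk s) hs
    change (f (pe hk s)).ofLp p = _
    rw [h1]
    have h2 : v (pe hk s) = (a' s : EuclideanSpace ℝ (Fin n)) := by
      change dite _ _ _ = _
      rw [dif_pos hs, if_pos (by change 2 * (s : ℕ) % 2 = 0; omega)]
      congr 2
      apply Fin.ext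
      change 2 * (s : ℕ) / 2 = s
      omega
    rw [h2]
  · intro s p
    have hs : (po hk s : ℕ) / 2 < kap n k := by
      have := s.2
      change (2 * (s : ℕ) + 1) / 2 < _
      omega
    have h1 := hf (po hk s) hs
    change (f (po hk s)).ofLp p = _
    rw [h1]
    have h2 : v (po hk s) = (b' s : EuclideanSpace ℝ (Fin n)) := by
      change dite _ _ _ = _
      rw [dif_pos hs, if_neg (by change ¬ (2 * (s : ℕ) + 1) % 2 = 0; omega)]
      congr 2
      apply Fin.ext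
      change (2 * (s : ℕ) + 1) / 2 = s
      omega
    rw [h2]
  · -- matrix identity, tested on vectors
    apply Matrix.ext_of_mulVec_single
    intro j
    set w : Fin n → ℝ := Pi.single j 1 with hw
    have hker : opr x (WithLp.toLp 2 ((1 - x) *ᵥ w)) = 0 := by
      rw [opr_apply]
      have : x *ᵥ ((1 - x) *ᵥ w) = 0 := by
        rw [Matrix.mulVec_mulVec, mul_sub, mul_one, hxx, sub_self, Matrix.zero_mulVec]
      rw [this]
      rfl
    have h1 := hsvd ⟨WithLp.toLp 2 ((1 - x) *ᵥ w), hker⟩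
    have h2 := congrArg (fun y : H => ((y : EuclideanSpace ℝ (Fin n))).ofLp) h1
    simp only at h2
    have h3 : ((A ⟨WithLp.toLp 2 ((1 - x) *ᵥ w), hker⟩ : H) : EuclideanSpace ℝ (Fin n)).ofLp
        = (x * C * (1 - x)) *ᵥ w := by
      rw [hA]
      change x *ᵥ (C *ᵥ ((1 - x) *ᵥ w)) = _
      rw [Matrix.mulVec_mulVec, Matrix.mulVec_mulVec, mul_assoc]
    rw [h3] at h2
    rw [h2]
    have h4 : ∀ s, inner ℝ (b' s) (⟨WithLp.toLp 2 ((1 - x) *ᵥ w), hker⟩ : K) = b s ⬝ᵥ w := by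
      intro s
      change inner ℝ ((b' s : EuclideanSpace ℝ (Fin n))) (WithLp.toLp 2 ((1 - x) *ᵥ w)) = _
      rw [inner_eq_dot]
      change b s ⬝ᵥ ((1 - x) *ᵥ w) = _
      rw [Matrix.sub_mulVec, Matrix.one_mulVec, dotProduct_sub]
      have h5 : b s ⬝ᵥ (x *ᵥ w) = 0 := by
        rw [Matrix.dotProduct_mulVec, ← Matrix.mulVec_transpose, hxT, hxb s, zero_dotProduct]
      rw [h5, sub_zero]
    simp only [h4]
    rw [Matrix.sum_mulVec]
    rw [Submodule.coe_sum]
    rw [WithLp.ofLp_sum]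
    apply Finset.sum_congr rfl
    intro s _
    rw [Matrix.smul_mulVec, Matrix.vecMulVec_mulVec]
    ext p
    simp [a, mul_comm, mul_assoc, mul_left_comm]

end Pool.Agent.H.MP_57d9fd_an
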