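import Mathlib

/-! Hadamard's lemma. -/

open scoped ContDiff Topology
open Filter MeasureTheory

namespace Pool.Agent.H.MP_57d9fd_an

universe u

/-- Smoothness of the averages `P ↦ ∫₀¹ w(t) h(x + t (P - x)) dt`. -/
lemma contDiff_average {E : Type u} [NormedAddCommGroup E] [NormedSpace ℝ E]
    [FiniteDimensional ℝ E] (x : E) (m : ℕ) :
    ∀ {F : Type u} [NormedAddCommGroup F] [NormedSpace ℝ F] [CompleteSpace F] (h : E → F)
      (_ : ContDiff ℝ ∞ h) (w : ℝ → ℝ) (_ : Continuous w),
      ContDiff ℝ m (fun P : E => ∫ t in (0 : ℝ)..1, w t • h (x + t • (P - x))) := by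
  induction m with
  | zero =>
    intro F _ _ _ h hh w hw
    rw [Nat.cast_zero, contDiff_zero]
    apply intervalIntegral.continuous_parametric_intervalIntegral_of_continuous'
    have := hh.continuous
    fun_prop
  | succ m ih =>
    intro F _ _ _ h hh w hw
    have hc := hh.continuous
    rw [Nat.cast_succ, contDiff_succ_iff_hasFDerivAt]
    have hdh : ContDiff ℝ ∞ (fderiv ℝ h) := hh.fderiv_right (by simp)
    have hdc := hdh.continuous
    refine ⟨fun P => ∫ t in (0 : ℝ)..1, (w t * t) • fderiv ℝ h (x + t • (P - x)),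
      ih (fderiv ℝ h) hdh (fun t => w t * t) (by fun_prop), ?_⟩
    intro P0
    have hK : IsCompact (Metric.closedBall P0 1 ×ˢ Set.Icc (0 : ℝ) 1) :=
      (isCompact_closedBall P0 1).prod isCompact_Icc
    have hg : Continuous (fun p : E × ℝ => (w p.2 * p.2) • fderiv ℝ h (x + p.2 • (p.1 - x))) := by
      fun_prop
    obtain ⟨C, hC⟩ := hK.exists_bound_of_continuousOn hg.continuousOn
    apply intervalIntegral.hasFDerivAt_integral_of_dominated_of_fderiv_le
      (F := fun P t => w t • h (x + t • (P - x)))
      (F' := fun P t => (w t * t) • fderiv ℝ h (x + t • (P - x)))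
      (s := Metric.closedBall P0 1) (bound := fun _ => C) (Metric.closedBall_mem_nhds P0 one_pos)
    · apply Eventually.of_forall
      intro P
      apply Continuous.aestronglyMeasurable
      fun_prop
    · apply Continuous.intervalIntegrable
      fun_prop
    · apply Continuous.aestronglyMeasurable
      fun_prop
    · apply Eventually.of_forall
      intro t ht P hP
      rw [Set.uIoc_of_le zero_le_one] at ht
      exact hC (P, t) ⟨hP, ht.1.le, ht.2⟩
    · exact intervalIntegrable_const
    · apply Eventually.of_forall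
      intro t _ P _
      have h1 : HasFDerivAt (fun P : E => x + t • (P - x)) (t • ContinuousLinearMap.id ℝ E) P :=
        (((hasFDerivAt_id P).sub_const x).const_smul t).const_add x
      have h2 : HasFDerivAt h (fderiv ℝ h (x + t • (P - x))) (x + t • (P - x)) :=
        (hh.differentiable (by simp) _).hasFDerivAt
      have h3 := (h2.comp P h1).const_smul (w t)
      refine h3.congr_fderiv ?_
      ext v
      simp [smul_smul]

/-- Hadamard's lemma: a smooth function is `φ(x) + Φ(P)(P - x)` with a smooth `Φ`. -/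
lemma hadamard {E : Type u} [NormedAddCommGroup E] [NormedSpace ℝ E]
    [FiniteDimensional ℝ E] {F : Type u} [NormedAddCommGroup F] [NormedSpace ℝ F] [CompleteSpace F]
    (x : E) (φ : E → F) (hφ : ContDiff ℝ ∞ φ) :
    ∃ Φ : E → E →L[ℝ] F, ContDiff ℝ ∞ Φ ∧ ∀ P, φ P = φ x + Φ P (P - x) := by
  have hdh : ContDiff ℝ ∞ (fderiv ℝ φ) := hφ.fderiv_right (by simp)
  have hdc := hdh.continuous
  refine ⟨fun P => ∫ t in (0 : ℝ)..1, (1 : ℝ) • fderiv ℝ φ (x + t • (P - x)), ?_, ?_⟩
  · rw [contDiff_infty]
    intro m
    exact contDiff_average x m (fderiv ℝ φ) hdh (fun _ => 1) continuous_const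
  · intro P
    have h1 : ∀ t : ℝ, HasDerivAt (fun t : ℝ => φ (x + t • (P - x)))
        (fderiv ℝ φ (x + t • (P - x)) (P - x)) t := by
      intro t
      have a1 : HasDerivAt (fun t : ℝ => x + t • (P - x)) (P - x) t := by
        have := ((hasDerivAt_id t).smul_const (P - x)).const_add x
        simpa using this
      exact (hφ.differentiable (by simp) _).hasFDerivAt.comp_hasDerivAt t a1
    have h2 : ∫ t in (0 : ℝ)..1, fderiv ℝ φ (x + t • (P - x)) (P - x)
        = φ (x + (1 : ℝ) • (P - x)) - φ (x + (0 : ℝ) • (P - x)) := by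
      apply intervalIntegral.integral_eq_sub_of_hasDerivAt (fun t _ => h1 t)
      apply Continuous.intervalIntegrable
      fun_prop
    have h3 : (∫ t in (0 : ℝ)..1, (1 : ℝ) • fderiv ℝ φ (x + t • (P - x))) (P - x)
        = ∫ t in (0 : ℝ)..1, fderiv ℝ φ (x + t • (P - x)) (P - x) := by
      rw [ContinuousLinearMap.intervalIntegral_apply]
      · simp
      · apply Continuous.intervalIntegrable
        fun_prop
    rw [h3, h2]
    simp

end Pool.Agent.H.MP_57d9fd_an
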