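import Mathlib

/-! Functions that are flat at a point, and the cut-off estimate. -/

open scoped ContDiff Topology
open Filter

namespace Pool.Agent.H.MP_57d9fd_an

variable {E : Type*} [NormedAddCommGroup E] [NormedSpace ℝ E]

/-- All derivatives of order `< a` vanish at `x`. -/
def Flat (x : E) (a : ℕ) (φ : E → ℂ) : Prop := ∀ i < a, iteratedFDeriv ℝ i φ x = 0

lemma contDiff_nat {φ : E → ℂ} (h : ContDiff ℝ ∞ φ) (m : ℕ) : ContDiff ℝ m φ :=
  contDiff_infty.1 h m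

lemma Flat.mono {x : E} {a b : ℕ} {φ : E → ℂ} (h : Flat x b φ) (hab : a ≤ b) : Flat x a φ :=
  fun i hi => h i (hi.trans_le hab)

lemma Flat.mul {x : E} {a b : ℕ} {φ ψ : E → ℂ} (hφ : ContDiff ℝ ∞ φ) (hψ : ContDiff ℝ ∞ ψ)
    (h1 : Flat x a φ) (h2 : Flat x b ψ) : Flat x (a + b) (fun y => φ y * ψ y) := by
  intro i hi
  have h := norm_iteratedFDeriv_mul_le (contDiff_nat hφ i) (contDiff_nat hψ i) x (n := i) le_rfl
  have h0 : ∑ j ∈ Finset.range (i + 1), (i.choose j : ℝ) * ‖iteratedFDeriv ℝ j φ x‖ *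
      ‖iteratedFDeriv ℝ (i - j) ψ x‖ = 0 := by
    apply Finset.sum_eq_zero
    intro j hj
    have hj' := Finset.mem_range.1 hj
    rcases lt_or_ge j a with hja | hja
    · rw [h1 j hja]; simp
    · rw [h2 (i - j) (by omega)]; simp
  rw [h0] at h
  exact norm_le_zero_iff.1 h

lemma flat_one_iff {x : E} {φ : E → ℂ} : Flat x 1 φ ↔ φ x = 0 := by
  constructor
  · intro h
    have := h 0 one_pos
    rw [← norm_eq_zero, norm_iteratedFDeriv_zero, norm_eq_zero] at this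
    exact this
  · intro h i hi
    obtain rfl : i = 0 := by omega
    rw [← norm_eq_zero, norm_iteratedFDeriv_zero, norm_eq_zero]
    exact h

lemma flat_zero (x : E) (φ : E → ℂ) : Flat x 0 φ := fun i hi => absurd hi (Nat.not_lt_zero i)

lemma Flat.mul_left {x : E} {a : ℕ} {φ ψ : E → ℂ} (hφ : ContDiff ℝ ∞ φ) (hψ : ContDiff ℝ ∞ ψ)
    (h1 : Flat x a φ) : Flat x a (fun y => φ y * ψ y) := by
  have := Flat.mul hφ hψ h1 (flat_zero x ψ)
  simpa using this

lemma flat_of_eventuallyEq_zero {x : E} {φ : E → ℂ} (h : φ =ᶠ[𝓝 x] 0) (a : ℕ) : Flat x a φ := by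
  intro i _
  rw [(h.iteratedFDeriv ℝ i).eq_of_nhds]
  simp

/-- Quantitative flatness. -/
lemma flat_bound [FiniteDimensional ℝ E] {φ : E → ℂ} (hφ : ContDiff ℝ ∞ φ) {x : E} {N : ℕ}
    (h : Flat x (N + 1) φ) :
    ∃ C : ℝ, 0 ≤ C ∧ ∀ P ∈ Metric.closedBall x 1, ∀ j ≤ N + 1,
      ‖iteratedFDeriv ℝ j φ P‖ ≤ C * ‖P - x‖ ^ (N + 1 - j) := by
  have hK : IsCompact (Metric.closedBall x 1) := isCompact_closedBall x 1
  have hcont : Continuous (iteratedFDeriv ℝ (N + 1) φ) :=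
    (contDiff_nat hφ (N + 1)).continuous_iteratedFDeriv le_rfl
  obtain ⟨C, hC⟩ := hK.exists_bound_of_continuousOn hcont.continuousOn
  have hC0 : 0 ≤ C := (norm_nonneg _).trans (hC x (by simp))
  refine ⟨C, hC0, ?_⟩
  have key : ∀ m ≤ N + 1, ∀ P ∈ Metric.closedBall x 1,
      ‖iteratedFDeriv ℝ (N + 1 - m) φ P‖ ≤ C * ‖P - x‖ ^ m := by
    intro m
    induction m with
    | zero =>
      intro _ P hP
      simpa using hC P hP
    | succ m ih =>
      intro hm P hP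
      set j := N + 1 - (m + 1) with hj
      have hj1 : j + 1 = N + 1 - m := by omega
      have hjlt : j < N + 1 := by omega
      have hx0 : iteratedFDeriv ℝ j φ x = 0 := h j hjlt
      have hPx : ‖P - x‖ ≤ 1 := by simpa [dist_eq_norm] using hP
      have hsub : Metric.closedBall x ‖P - x‖ ⊆ Metric.closedBall x 1 :=
        Metric.closedBall_subset_closedBall hPx
      have hdiff : Differentiable ℝ (iteratedFDeriv ℝ j φ) :=
        (contDiff_nat hφ (j + 1)).differentiable_iteratedFDeriv (by exact_mod_cast Nat.lt_succ_self j)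
      have := (convex_closedBall x ‖P - x‖).norm_image_sub_le_of_norm_fderiv_le
        (f := iteratedFDeriv ℝ j φ) (C := C * ‖P - x‖ ^ m) (x := x) (y := P)
        (fun y _ => hdiff y) (fun Q hQ => by
          rw [norm_fderiv_iteratedFDeriv, hj1]
          refine (ih (by omega) Q (hsub hQ)).trans ?_
          have hQ' : ‖Q - x‖ ≤ ‖P - x‖ := by simpa [dist_eq_norm] using hQ
          gcongr) (by simp) (by simp [dist_eq_norm])
      rw [hx0, sub_zero] at this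
      calc ‖iteratedFDeriv ℝ j φ P‖ ≤ _ := this
        _ = C * ‖P - x‖ ^ (m + 1) := by ring
  intro P hP j hj
  have := key (N + 1 - j) (by omega) P hP
  have h2 : N + 1 - (N + 1 - j) = j := by omega
  rwa [h2] at this

section cutoff

variable (E) [FiniteDimensional ℝ E]

/-- A fixed bump function. -/
noncomputable def chi : ContDiffBump (0 : E) := ⟨1, 2, one_pos, one_lt_two⟩

variable {E}

/-- The rescaled bump at `x`, complex valued. -/
noncomputable def cut (x : E) (ε : ℝ) (P : E) : ℂ := ((chi E (ε⁻¹ • (P - x)) : ℝ) : ℂ)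

lemma cut_contDiff (x : E) (ε : ℝ) : ContDiff ℝ ∞ (cut x ε) := by
  have h1 : ContDiff ℝ ((⊤ : ℕ∞) : WithTop ℕ∞) (chi E) := (chi E).contDiff
  have h2 : ContDiff ℝ ((⊤ : ℕ∞) : WithTop ℕ∞) (fun P : E => ε⁻¹ • (P - x)) :=
    (contDiff_id.sub contDiff_const).const_smul _
  exact Complex.ofRealCLM.contDiff.comp (h1.comp h2)

lemma cut_eq_one {x : E} {ε : ℝ} (hε : 0 < ε) : cut x ε =ᶠ[𝓝 x] 1 := by
  have : Metric.ball x ε ∈ 𝓝 x := Metric.ball_mem_nhds x hε
  filter_upwards [this] with P hP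
  have hP' : ‖P - x‖ < ε := by simpa [dist_eq_norm] using hP
  simp only [cut, Pi.one_apply]
  rw [(chi E).one_of_mem_closedBall, Complex.ofReal_one]
  change ε⁻¹ • (P - x) ∈ Metric.closedBall (0 : E) 1
  rw [mem_closedBall_zero_iff, norm_smul, Real.norm_of_nonneg (inv_nonneg.2 hε.le),
    ← div_eq_inv_mul, div_le_one hε]
  exact hP'.le

lemma cut_eq_zero {x P : E} {ε : ℝ} (hε : 0 < ε) (hP : 2 * ε ≤ ‖P - x‖) : cut x ε P = 0 := by
  simp only [cut]
  rw [(chi E).zero_of_le_dist, Complex.ofReal_zero]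
  change (2 : ℝ) ≤ dist (ε⁻¹ • (P - x)) 0
  rw [dist_zero_right, norm_smul, Real.norm_of_nonneg (inv_nonneg.2 hε.le),
    ← div_eq_inv_mul, le_div_iff₀ hε]
  exact hP

lemma cut_bound (N : ℕ) : ∃ C : ℝ, 0 ≤ C ∧ ∀ (x : E) (ε : ℝ), 0 < ε → ∀ P, ∀ i ≤ N,
    ‖iteratedFDeriv ℝ i (cut x ε) P‖ ≤ C * (ε⁻¹) ^ i := by
  let c : E → ℂ := fun P => ((chi E P : ℝ) : ℂ)
  have hc : ContDiff ℝ ∞ c := by
    have h1 : ContDiff ℝ ((⊤ : ℕ∞) : WithTop ℕ∞) (chi E) := (chi E).contDiff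
    exact Complex.ofRealCLM.contDiff.comp h1
  have hcs : HasCompactSupport c := by
    have : HasCompactSupport (chi E) := (chi E).hasCompactSupport
    exact this.comp_left (g := fun t : ℝ => (t : ℂ)) (by simp)
  have hb : ∀ i : ℕ, ∃ C : ℝ, ∀ P, ‖iteratedFDeriv ℝ i c P‖ ≤ C := fun i =>
    (hcs.iteratedFDeriv (𝕜 := ℝ) i).exists_bound_of_continuous
      ((contDiff_nat hc i).continuous_iteratedFDeriv le_rfl)
  choose C hC using hb
  have hC0 : ∀ i, 0 ≤ C i := fun i => (norm_nonneg _).trans (hC i 0)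
  refine ⟨∑ i ∈ Finset.range (N + 1), C i, Finset.sum_nonneg fun i _ => hC0 i, ?_⟩
  intro x ε hε P i hi
  let L : E →L[ℝ] E := ε⁻¹ • ContinuousLinearMap.id ℝ E
  have e1 : cut x ε = fun P => (c ∘ L) (P - x) := by
    ext P; rfl
  rw [e1, iteratedFDeriv_comp_sub]
  rw [ContinuousLinearMap.iteratedFDeriv_comp_right L (contDiff_nat hc i) _ le_rfl]
  refine (ContinuousMultilinearMap.norm_compContinuousLinearMap_le _ _).trans ?_
  have hL : ‖L‖ ≤ ε⁻¹ := by
    apply ContinuousLinearMap.opNorm_le_bound _ (inv_nonneg.2 hε.le)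
    intro y
    change ‖ε⁻¹ • y‖ ≤ ε⁻¹ * ‖y‖
    rw [norm_smul, Real.norm_of_nonneg (inv_nonneg.2 hε.le)]
  have h1 : ‖iteratedFDeriv ℝ i c (L (P - x))‖ ≤ ∑ i ∈ Finset.range (N + 1), C i :=
    (hC i _).trans (Finset.single_le_sum (f := C) (fun i _ => hC0 i)
      (Finset.mem_range.2 (Nat.lt_succ_of_le hi)))
  have h2 : ∏ _j : Fin i, ‖L‖ ≤ (ε⁻¹) ^ i := by
    rw [Finset.prod_const, Finset.card_univ, Fintype.card_fin]
    exact pow_le_pow_left₀ (norm_nonneg _) hL i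
  calc _ ≤ (∑ i ∈ Finset.range (N + 1), C i) * (ε⁻¹) ^ i := by
        apply mul_le_mul h1 h2 (Finset.prod_nonneg fun _ _ => norm_nonneg _)
        exact Finset.sum_nonneg fun i _ => hC0 i
    _ = _ := rfl

lemma cut_mul_bound {φ : E → ℂ} (hφ : ContDiff ℝ ∞ φ) {x : E} {N : ℕ}
    (h : Flat x (N + 1) φ) :
    ∃ K : ℝ, 0 ≤ K ∧ ∀ ε : ℝ, 0 < ε → ε ≤ 1 / 2 → ∀ P, ∀ i ≤ N,
      ‖iteratedFDeriv ℝ i (fun P => cut x ε P * φ P) P‖ ≤ K * ε := by
  obtain ⟨C, hC0, hC⟩ := flat_bound hφ h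
  obtain ⟨D, hD0, hD⟩ := cut_bound (E := E) N
  refine ⟨2 ^ N * (D * (C * 2 ^ (N + 1))), by positivity, ?_⟩
  intro ε hε hε2 P i hi
  rcases le_or_gt ‖P - x‖ (2 * ε) with hP | hP
  · have h1 := norm_iteratedFDeriv_mul_le (contDiff_nat (cut_contDiff x ε) i)
      (contDiff_nat hφ i) P (n := i) le_rfl
    refine h1.trans ?_
    have hterm : ∀ j ∈ Finset.range (i + 1), (i.choose j : ℝ) * ‖iteratedFDeriv ℝ j (cut x ε) P‖ *
        ‖iteratedFDeriv ℝ (i - j) φ P‖ ≤ (i.choose j : ℝ) * ((D * (C * 2 ^ (N + 1))) * ε) := by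
      intro j hj
      have hj' : j ≤ i := Nat.lt_succ_iff.1 (Finset.mem_range.1 hj)
      have a1 := hD x ε hε P j (hj'.trans hi)
      have a2 := hC P (by simp [dist_eq_norm]; linarith) (i - j) (by omega)
      have a3 : ‖P - x‖ ^ (N + 1 - (i - j)) ≤ (2 * ε) ^ (N + 1 - (i - j)) := by gcongr
      have a4 : (2 * ε) ^ (N + 1 - (i - j)) = 2 ^ (N + 1 - (i - j)) * (ε ^ (N + 1 - i) * ε ^ j) := by
        rw [mul_pow, ← pow_add]; congr 2; omega
      have a5 : (ε⁻¹) ^ j * ε ^ j = 1 := by rw [← mul_pow, inv_mul_cancel₀ hε.ne', one_pow]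
      have a6 : (2 : ℝ) ^ (N + 1 - (i - j)) ≤ 2 ^ (N + 1) :=
        pow_le_pow_right₀ one_le_two (by omega)
      have a7 : ε ^ (N + 1 - i) ≤ ε := by
        have : ε ^ (N + 1 - i) ≤ ε ^ 1 := pow_le_pow_of_le_one hε.le (by linarith) (by omega)
        simpa using this
      have a8 : ‖iteratedFDeriv ℝ j (cut x ε) P‖ * ‖iteratedFDeriv ℝ (i - j) φ P‖
          ≤ (D * (ε⁻¹) ^ j) * (C * (2 ^ (N + 1) * (ε * ε ^ j))) := by
        apply mul_le_mul a1 _ (norm_nonneg _) (by positivity)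
        refine a2.trans ?_
        apply mul_le_mul_of_nonneg_left _ hC0
        refine a3.trans ?_
        rw [a4]
        apply mul_le_mul a6 _ (by positivity) (by positivity)
        exact mul_le_mul_of_nonneg_right a7 (by positivity)
      rw [mul_assoc]
      apply mul_le_mul_of_nonneg_left _ (by positivity)
      refine a8.trans (le_of_eq ?_)
      calc (D * (ε⁻¹) ^ j) * (C * (2 ^ (N + 1) * (ε * ε ^ j)))
          = D * (C * 2 ^ (N + 1)) * ε * ((ε⁻¹) ^ j * ε ^ j) := by ring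
        _ = D * (C * 2 ^ (N + 1)) * ε := by rw [a5, mul_one]
    refine (Finset.sum_le_sum hterm).trans ?_
    rw [← Finset.sum_mul]
    have hch : ∑ j ∈ Finset.range (i + 1), (i.choose j : ℝ) = 2 ^ i := by
      exact_mod_cast Nat.sum_range_choose i
    rw [hch, ← mul_assoc]
    have : (2 : ℝ) ^ i ≤ 2 ^ N := pow_le_pow_right₀ one_le_two hi
    gcongr
  · have hz : (fun P => cut x ε P * φ P) =ᶠ[𝓝 P] 0 := by
      have hopen : IsOpen {Q : E | 2 * ε < ‖Q - x‖} :=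
        isOpen_lt continuous_const (by fun_prop)
      filter_upwards [hopen.mem_nhds hP] with Q hQ
      have hQ' : 2 * ε < ‖Q - x‖ := hQ
      simp [cut_eq_zero hε hQ'.le]
    have := flat_of_eventuallyEq_zero hz (i + 1) i (Nat.lt_succ_self i)
    rw [this, norm_zero]
    positivity

end cutoff

end Pool.Agent.H.MP_57d9fd_an
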