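import Mathlib
import Pool.Agent.H.MP_57d9fd_an.Defs
import Pool.Agent.H.MP_57d9fd_an.Flat

/-! A finitely supported distribution kills functions that are flat enough on the support. -/

open scoped Matrix.Norms.Elementwise ContDiff Topology
open Matrix Filter

namespace Pool.Agent.H.MP_57d9fd_an

/-- underlying function -/
abbrev fn {n : ℕ} (φ : Sm n) : Matrix (Fin n) (Fin n) ℝ → ℂ :=
  (φ : Matrix (Fin n) (Fin n) ℝ → ℂ)

lemma smooth {n : ℕ} (φ : Sm n) : ContDiff ℝ ∞ (fn φ) := φ.2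

/-- cut-off as an element of `Sm n` -/
noncomputable def cutSm {n : ℕ} (x : Matrix (Fin n) (Fin n) ℝ) (ε : ℝ) : Sm n :=
  ⟨cut x ε, cut_contDiff x ε⟩

lemma kill_flat {n k : ℕ} (T : GrDistribution n k) (F : Finset (Matrix (Fin n) (Fin n) ℝ))
    (hF : T.SupportedIn F) :
    ∃ N : ℕ, ∀ φ : Sm n, (∀ x ∈ F, Flat x (N + 1) (fn φ)) → T.toFun φ = 0 := by
  obtain ⟨N, C, hC⟩ := T.continuous
  refine ⟨N, fun φ hφ => ?_⟩
  have hK : ∀ x : Matrix (Fin n) (Fin n) ℝ, ∃ K : ℝ, 0 ≤ K ∧ (x ∈ F → ∀ ε : ℝ, 0 < ε → ε ≤ 1 / 2 →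
      ∀ P, ∀ i ≤ N, ‖iteratedFDeriv ℝ i (fun P => cut x ε P * fn φ P) P‖ ≤ K * ε) := by
    intro x
    by_cases hx : x ∈ F
    · obtain ⟨K, hK0, hK⟩ := cut_mul_bound (smooth φ) (hφ x hx)
      exact ⟨K, hK0, fun _ => hK⟩
    · exact ⟨0, le_rfl, fun h => absurd h hx⟩
  choose K hK0 hK using hK
  -- the estimate for one cut-off
  have h1 : ∀ x ∈ F, ∀ ε : ℝ, 0 < ε → ε ≤ 1 / 2 →
      ‖T.toFun (cutSm x ε * φ)‖ ≤ |C| * (K x * ε) := by
    intro x hx ε hε hε2
    have h2 := hC (cutSm x ε * φ) (K x * ε) (fun P _ i hi => hK x hx ε hε hε2 P i hi)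
    refine h2.trans ?_
    exact mul_le_mul_of_nonneg_right (le_abs_self C) (mul_nonneg (hK0 x) hε.le)
  have hsep : ∀ᶠ ε : ℝ in 𝓝[>] 0, ∀ x ∈ F, ∀ y ∈ F, x ≠ y → 2 * ε < ‖x - y‖ := by
    rw [eventually_all_finset]
    intro x _
    rw [eventually_all_finset]
    intro y _
    rcases eq_or_ne x y with rfl | hxy
    · exact Eventually.of_forall fun _ h => absurd rfl h
    · have hpos : 0 < ‖x - y‖ := norm_pos_iff.2 (sub_ne_zero.2 hxy)
      have : ∀ᶠ ε : ℝ in 𝓝[>] 0, ε < ‖x - y‖ / 2 :=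
        nhdsWithin_le_nhds (gt_mem_nhds (by positivity))
      filter_upwards [this] with ε hε _
      linarith
  have hsmall : ∀ᶠ ε : ℝ in 𝓝[>] 0, ε ≤ 1 / 2 :=
    nhdsWithin_le_nhds (ge_mem_nhds (by norm_num))
  have hpos : ∀ᶠ ε : ℝ in 𝓝[>] 0, 0 < ε := eventually_mem_nhdsWithin
  have hmain : ∀ᶠ ε : ℝ in 𝓝[>] 0, ‖T.toFun φ‖ ≤ (∑ x ∈ F, |C| * K x) * ε := by
    filter_upwards [hsep, hsmall, hpos] with ε hs hε2 hε
    have hz : T.toFun (φ - ∑ x ∈ F, cutSm x ε * φ) = 0 := by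
      apply hF
      intro x hx
      have hx' : x ∈ F := hx
      have hothers : ∀ᶠ P in 𝓝 x, ∀ y ∈ F, y ≠ x → cut y ε P = 0 := by
        rw [eventually_all_finset]
        intro y hy
        rcases eq_or_ne y x with rfl | hyx
        · exact Eventually.of_forall fun _ h => absurd rfl h
        · have hop : IsOpen {P : Matrix (Fin n) (Fin n) ℝ | 2 * ε < ‖P - y‖} :=
            isOpen_lt continuous_const (by fun_prop)
          have hmem : x ∈ {P : Matrix (Fin n) (Fin n) ℝ | 2 * ε < ‖P - y‖} :=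
            hs x hx' y hy (Ne.symm hyx)
          filter_upwards [hop.mem_nhds hmem] with P hP _
          exact cut_eq_zero hε (le_of_lt hP)
      filter_upwards [hothers, cut_eq_one (x := x) hε] with P hP1 hP2
      have e1 : ((φ - ∑ x ∈ F, cutSm x ε * φ : Sm n) : Matrix (Fin n) (Fin n) ℝ → ℂ) P
          = fn φ P - ∑ y ∈ F, cut y ε P * fn φ P := by
        simp [cutSm, fn]
      rw [e1, Finset.sum_eq_single_of_mem x hx' (fun y hy hyx => by rw [hP1 y hy hyx, zero_mul])]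
      rw [hP2]
      simp
    rw [map_sub, sub_eq_zero, map_sum] at hz
    rw [hz]
    refine (norm_sum_le _ _).trans ?_
    rw [Finset.sum_mul]
    apply Finset.sum_le_sum
    intro x hx
    refine (h1 x hx ε hε hε2).trans (le_of_eq ?_)
    ring
  have hlim : Tendsto (fun ε : ℝ => (∑ x ∈ F, |C| * K x) * ε) (𝓝[>] 0) (𝓝 0) := by
    have : Tendsto (fun ε : ℝ => (∑ x ∈ F, |C| * K x) * ε) (𝓝 0) (𝓝 ((∑ x ∈ F, |C| * K x) * 0)) :=
      (continuous_const.mul continuous_id).tendsto 0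
    rw [mul_zero] at this
    exact this.mono_left nhdsWithin_le_nhds
  have := ge_of_tendsto hlim hmain
  exact norm_le_zero_iff.1 this

end Pool.Agent.H.MP_57d9fd_an
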