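import Mathlib
import Pool.Agent.H.MP_57d9fd_an.Kill
import Pool.Agent.H.MP_57d9fd_an.Hadamard

/-! The leading symbol of a finitely supported distribution at one of its points. -/

open scoped Matrix.Norms.Elementwise ContDiff Topology Pointwise
open Matrix Filter

namespace Pool.Agent.H.MP_57d9fd_an

variable {n k : ℕ}

/-- evaluation at a point -/
def ev (x : Matrix (Fin n) (Fin n) ℝ) : Sm n →ₐ[ℂ] ℂ :=
  (Pi.evalAlgHom ℂ (fun _ : Matrix (Fin n) (Fin n) ℝ => ℂ) x).comp (Sm n).val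

lemma ev_apply (x : Matrix (Fin n) (Fin n) ℝ) (φ : Sm n) : ev x φ = fn φ x := rfl

/-- the maximal ideal of functions vanishing at `x` -/
def mx (x : Matrix (Fin n) (Fin n) ℝ) : Ideal (Sm n) := RingHom.ker (ev x)

lemma mem_mx {x : Matrix (Fin n) (Fin n) ℝ} {φ : Sm n} : φ ∈ mx x ↔ fn φ x = 0 := by
  rw [mx, RingHom.mem_ker, ev_apply]

/-- the centred coordinate functions -/
def dl (x : Matrix (Fin n) (Fin n) ℝ) (p q : Fin n) : Sm n :=
  ⟨fun P => ((P p q - x p q : ℝ) : ℂ), by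
    change ContDiff ℝ ∞ _
    apply Complex.ofRealCLM.contDiff.comp
    have h1 : ContDiff ℝ ∞ (fun P : Matrix (Fin n) (Fin n) ℝ => P p q) := by
      have h2 : ContDiff ℝ ∞ (fun P : Fin n → Fin n → ℝ => P p q) := by fun_prop
      exact h2
    exact h1.sub contDiff_const⟩

lemma dl_apply (x : Matrix (Fin n) (Fin n) ℝ) (p q : Fin n) (P : Matrix (Fin n) (Fin n) ℝ) :
    fn (dl x p q) P = ((P p q - x p q : ℝ) : ℂ) := rfl

lemma dl_mem (x : Matrix (Fin n) (Fin n) ℝ) (p q : Fin n) : dl x p q ∈ mx x := by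
  rw [mem_mx, dl_apply]; simp

lemma sm_ext {φ ψ : Sm n} (h : ∀ P, fn φ P = fn ψ P) : φ = ψ := Subtype.ext (funext h)

/-- the set of centred coordinates -/
def gens (x : Matrix (Fin n) (Fin n) ℝ) : Set (Sm n) :=
  Set.range (fun pq : Fin n × Fin n => dl x pq.1 pq.2)

lemma mx_eq_span (x : Matrix (Fin n) (Fin n) ℝ) : mx x = Ideal.span (gens x) := by
  apply le_antisymm
  · intro φ hφ
    rw [mem_mx] at hφ
    obtain ⟨Φ, hΦ, h⟩ := hadamard x (fn φ) (smooth φ)
    have hΦc : ∀ p q, ContDiff ℝ ∞ (fun P => Φ P (Matrix.single p q (1 : ℝ))) := fun p q =>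
      hΦ.clm_apply contDiff_const
    have e1 : φ = ∑ p, ∑ q, (⟨fun P => Φ P (Matrix.single p q (1 : ℝ)), hΦc p q⟩ : Sm n) * dl x p q := by
      apply sm_ext
      intro P
      have e2 : P - x = ∑ p, ∑ q, (P p q - x p q) • Matrix.single p q (1 : ℝ) := by
        conv_lhs => rw [Matrix.matrix_eq_sum_single (P - x)]
        simp [Matrix.smul_single]
      rw [h P, hφ, zero_add]
      conv_lhs => rw [e2]
      simp only [map_sum, map_smul]
      simp only [fn, AddSubmonoidClass.coe_finsetSum, Finset.sum_apply, MulMemClass.coe_mul,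
        Pi.mul_apply]
      apply Finset.sum_congr rfl
      intro p _
      apply Finset.sum_congr rfl
      intro q _
      have := dl_apply x p q P
      simp only [fn] at this
      rw [this, Complex.real_smul, mul_comm]
    rw [e1]
    apply Ideal.sum_mem
    intro p _
    apply Ideal.sum_mem
    intro q _
    exact Ideal.mul_mem_left _ _ (Ideal.subset_span ⟨(p, q), rfl⟩)
  · rw [Ideal.span_le]
    rintro _ ⟨⟨p, q⟩, rfl⟩
    exact dl_mem x p q

lemma flat_add {x : Matrix (Fin n) (Fin n) ℝ} {a : ℕ} {φ ψ : Sm n} (h1 : Flat x a (fn φ))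
    (h2 : Flat x a (fn ψ)) : Flat x a (fn (φ + ψ)) := by
  intro i hi
  have : fn (φ + ψ) = fn φ + fn ψ := rfl
  rw [this, iteratedFDeriv_add_apply (contDiff_nat (smooth φ) i).contDiffAt
    (contDiff_nat (smooth ψ) i).contDiffAt, h1 i hi, h2 i hi, add_zero]

lemma flat_mul {x : Matrix (Fin n) (Fin n) ℝ} {a b : ℕ} {φ ψ : Sm n} (h1 : Flat x a (fn φ))
    (h2 : Flat x b (fn ψ)) : Flat x (a + b) (fn (φ * ψ)) :=
  Flat.mul (smooth φ) (smooth ψ) h1 h2

lemma flat_of_mem_pow {x : Matrix (Fin n) (Fin n) ℝ} {a : ℕ} {φ : Sm n} (h : φ ∈ mx x ^ a) :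
    Flat x a (fn φ) := by
  induction a generalizing φ with
  | zero => exact flat_zero _ _
  | succ a ih =>
    rw [pow_succ] at h
    refine Submodule.mul_induction_on h ?_ ?_
    · intro u hu v hv
      exact flat_mul (ih hu) (flat_one_iff.2 (mem_mx.1 hv))
    · intro u v hu hv
      exact flat_add hu hv

lemma flat_mul_right {x : Matrix (Fin n) (Fin n) ℝ} {a : ℕ} {φ ψ : Sm n} (h1 : Flat x a (fn φ)) :
    Flat x a (fn (φ * ψ)) := by
  simpa using flat_mul h1 (flat_zero x (fn ψ))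

lemma flat_mul_left {x : Matrix (Fin n) (Fin n) ℝ} {a : ℕ} {φ ψ : Sm n} (h1 : Flat x a (fn ψ)) :
    Flat x a (fn (φ * ψ)) := by
  simpa using flat_mul (flat_zero x (fn φ)) h1

/-- real linear forms `P ↦ ∑ B_{pq} (P - x)_{pq}` -/
noncomputable def lin (x : Matrix (Fin n) (Fin n) ℝ) (B : Matrix (Fin n) (Fin n) ℝ) : Sm n :=
  ∑ p, ∑ q, ((B p q : ℝ) : ℂ) • dl x p q

lemma lin_add (x B C : Matrix (Fin n) (Fin n) ℝ) : lin x (B + C) = lin x B + lin x C := by
  simp only [lin, Matrix.add_apply, Complex.ofReal_add, add_smul, Finset.sum_add_distrib]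

lemma lin_smul (x B : Matrix (Fin n) (Fin n) ℝ) (t : ℝ) : lin x (t • B) = (t : ℂ) • lin x B := by
  simp only [lin, Matrix.smul_apply, smul_eq_mul, Complex.ofReal_mul, mul_smul, Finset.smul_sum]

lemma lin_single (x : Matrix (Fin n) (Fin n) ℝ) (p q : Fin n) :
    lin x (Matrix.single p q 1) = dl x p q := by
  unfold lin
  rw [Finset.sum_eq_single p, Finset.sum_eq_single q]
  · simp
  · intro b _ hb
    rw [Matrix.single_apply_of_ne]
    · simp
    · rintro ⟨_, h⟩; exact hb h.symm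
  · simp
  · intro b _ hb
    apply Finset.sum_eq_zero
    intro c _
    rw [Matrix.single_apply_of_ne]
    · simp
    · rintro ⟨h, _⟩; exact hb h.symm
  · simp

/-- Polarization: a functional vanishing on all `d`-th powers of elements of a real-linear
family vanishes on all products of `d` elements of the family. -/
lemma polarize {V : Type*} [AddCommGroup V] [Module ℝ V] {A : Type*} [CommRing A] [Algebra ℂ A]
    (L : V → A) (hadd : ∀ v w, L (v + w) = L v + L w) (hsmul : ∀ (t : ℝ) v, L (t • v) = (t : ℂ) • L v)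
    (d : ℕ) : ∀ (μ : A →ₗ[ℂ] ℂ), (∀ v, μ (L v ^ d) = 0) → ∀ l : List V, l.length = d →
      μ ((l.map L).prod) = 0 := by
  induction d with
  | zero =>
    intro μ h l hl
    obtain rfl := List.length_eq_zero_iff.1 hl
    have := h 0
    simpa using this
  | succ d ih =>
    intro μ h l hl
    obtain ⟨w, l', rfl⟩ : ∃ w l', l = w :: l' := by
      cases l with
      | nil => simp at hl
      | cons w l' => exact ⟨w, l', rfl⟩
    have hl' : l'.length = d := by simpa using hl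
    have h2 := ih (μ.comp (LinearMap.mulLeft ℂ (L w))) ?_ l' hl'
    · simpa using h2
    intro v
    -- expand `μ (L (v + t w)^(d+1)) = 0`
    let p : Polynomial ℂ := ∑ j ∈ Finset.range (d + 1 + 1),
      Polynomial.C (((d + 1).choose j : ℂ) * μ (L v ^ (d + 1 - j) * L w ^ j)) * Polynomial.X ^ j
    have hp : ∀ t : ℝ, p.eval (t : ℂ) = 0 := by
      intro t
      have h3 := h (t • w + v)
      rw [hadd, hsmul, add_pow, map_sum] at h3
      rw [← h3]
      simp only [p, Polynomial.eval_finsetSum, Polynomial.eval_mul, Polynomial.eval_C,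
        Polynomial.eval_pow, Polynomial.eval_X]
      apply Finset.sum_congr rfl
      intro j _
      rw [smul_pow, smul_mul_assoc, smul_mul_assoc, map_smul, smul_eq_mul]
      have e1 : L w ^ j * L v ^ (d + 1 - j) * ((d + 1).choose j : A)
          = ((d + 1).choose j : ℂ) • (L v ^ (d + 1 - j) * L w ^ j) := by
        rw [Algebra.smul_def, map_natCast]; ring
      rw [e1, map_smul, smul_eq_mul]
      ring
    have hp0 : p = 0 := by
      apply Polynomial.eq_zero_of_infinite_isRoot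
      apply Set.Infinite.mono (s := Set.range (fun t : ℝ => (t : ℂ)))
      · rintro _ ⟨t, rfl⟩; exact hp t
      · exact Set.infinite_range_of_injective Complex.ofReal_injective
    have hc : p.coeff 1 = ((d + 1).choose 1 : ℂ) * μ (L v ^ (d + 1 - 1) * L w ^ 1) := by
      simp only [p, Polynomial.finsetSum_coeff, Polynomial.coeff_C_mul, Polynomial.coeff_X_pow]
      rw [Finset.sum_eq_single 1]
      · simp
      · intro b _ hb
        simp [Ne.symm hb]
      · intro hb; exact absurd (Finset.mem_range.2 (by omega)) hb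
    rw [hp0, Polynomial.coeff_zero] at hc
    have h4 : μ (L v ^ d * L w) = 0 := by
      have h5 : ((d + 1).choose 1 : ℂ) ≠ 0 := by
        rw [Nat.choose_one_right]; exact_mod_cast Nat.succ_ne_zero d
      have := (mul_eq_zero.1 hc.symm).resolve_left h5
      simpa using this
    simpa [mul_comm] using h4

/-- The leading symbol at one of the points of the support. -/
lemma exists_symbol (T : GrDistribution n k) (F : Finset (Matrix (Fin n) (Fin n) ℝ))
    (hF : T.SupportedIn F) (hT : T.toFun ≠ 0) :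
    ∃ N : ℕ, (∀ φ : Sm n, (∀ x ∈ F, φ ∈ mx x ^ (N + 1)) → T.toFun φ = 0) ∧
    ∃ x₁ ∈ F, ∃ E₁ : Sm n, ∃ d : ℕ,
      (∀ φ ∈ mx x₁ ^ (d + 1), T.toFun (E₁ * φ) = 0) ∧
      (∃ B : Matrix (Fin n) (Fin n) ℝ, T.toFun (E₁ * lin x₁ B ^ d) ≠ 0) ∧
      (∀ e ψ : Sm n, (∀ x ∈ F, x ≠ x₁ → e ∈ mx x ^ (N + 1)) →
        T.toFun (e * ψ) = T.toFun (E₁ * (e * ψ))) := by
  obtain ⟨N, hN⟩ := kill_flat T F hF
  have hN' : ∀ φ : Sm n, (∀ x ∈ F, φ ∈ mx x ^ (N + 1)) → T.toFun φ = 0 :=
    fun φ hφ => hN φ fun x hx => flat_of_mem_pow (hφ x hx)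
  refine ⟨N, hN', ?_⟩
  -- separate the points
  obtain ⟨ε, hε, hsep⟩ : ∃ ε : ℝ, 0 < ε ∧ ∀ x ∈ F, ∀ y ∈ F, x ≠ y → 2 * ε < ‖x - y‖ := by
    have hsep : ∀ᶠ ε : ℝ in 𝓝[>] 0, ∀ x ∈ F, ∀ y ∈ F, x ≠ y → 2 * ε < ‖x - y‖ := by
      rw [eventually_all_finset]
      intro x _
      rw [eventually_all_finset]
      intro y _
      rcases eq_or_ne x y with rfl | hxy
      · exact Eventually.of_forall fun _ h => absurd rfl h
      · have hpos : 0 < ‖x - y‖ := norm_pos_iff.2 (sub_ne_zero.2 hxy)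
        have : ∀ᶠ ε : ℝ in 𝓝[>] 0, ε < ‖x - y‖ / 2 :=
          nhdsWithin_le_nhds (gt_mem_nhds (by positivity))
        filter_upwards [this] with ε hε _
        linarith
    have hpos : ∀ᶠ ε : ℝ in 𝓝[>] 0, 0 < ε := eventually_mem_nhdsWithin
    obtain ⟨ε, h⟩ := (hpos.and hsep).exists
    exact ⟨ε, h.1, h.2⟩
  have hnear : ∀ x ∈ F, ∀ y ∈ F, y ≠ x → cut y ε =ᶠ[𝓝 x] 0 := by
    intro x hx y hy hyx
    have hop : IsOpen {P : Matrix (Fin n) (Fin n) ℝ | 2 * ε < ‖P - y‖} :=
      isOpen_lt continuous_const (by fun_prop)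
    have hmem : x ∈ {P : Matrix (Fin n) (Fin n) ℝ | 2 * ε < ‖P - y‖} :=
      hsep x hx y hy (Ne.symm hyx)
    filter_upwards [hop.mem_nhds hmem] with P hP
    exact cut_eq_zero hε (le_of_lt hP)
  have hcutflat : ∀ x ∈ F, ∀ y ∈ F, y ≠ x → ∀ (ψ : Sm n) (a : ℕ), Flat x a (fn (cutSm y ε * ψ)) := by
    intro x hx y hy hyx ψ a
    apply flat_of_eventuallyEq_zero
    filter_upwards [hnear x hx y hy hyx] with P hP
    have : fn (cutSm y ε * ψ) P = cut y ε P * fn ψ P := rfl
    rw [this, hP]; simp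
  have hdecomp : ∀ φ : Sm n, T.toFun φ = ∑ x ∈ F, T.toFun (cutSm x ε * φ) := by
    intro φ
    have hz : T.toFun (φ - ∑ x ∈ F, cutSm x ε * φ) = 0 := by
      apply hF
      intro x hx
      have hx' : x ∈ F := hx
      have hothers : ∀ᶠ P in 𝓝 x, ∀ y ∈ F, y ≠ x → cut y ε P = 0 := by
        rw [eventually_all_finset]
        intro y hy
        rcases eq_or_ne y x with rfl | hyx
        · exact Eventually.of_forall fun _ h => absurd rfl h
        · filter_upwards [hnear x hx' y hy hyx] with P hP _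
          exact hP
      filter_upwards [hothers, cut_eq_one (x := x) hε] with P hP1 hP2
      have e1 : ((φ - ∑ x ∈ F, cutSm x ε * φ : Sm n) : Matrix (Fin n) (Fin n) ℝ → ℂ) P
          = fn φ P - ∑ y ∈ F, cut y ε P * fn φ P := by
        simp [cutSm, fn]
      rw [e1, Finset.sum_eq_single_of_mem x hx' (fun y hy hyx => by rw [hP1 y hy hyx, zero_mul])]
      rw [hP2]
      simp
    rw [map_sub, sub_eq_zero, map_sum] at hz
    exact hz
  -- choose the point
  obtain ⟨x₁, hx₁, ψ₁, hψ₁⟩ : ∃ x₁ ∈ F, ∃ ψ : Sm n, T.toFun (cutSm x₁ ε * ψ) ≠ 0 := by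
    by_contra hcon
    push Not at hcon
    apply hT
    ext φ
    rw [hdecomp φ, Finset.sum_eq_zero (fun x hx => hcon x hx φ)]
    rfl
  let μ : Sm n →ₗ[ℂ] ℂ := T.toFun.comp (LinearMap.mulLeft ℂ (cutSm x₁ ε))
  have hμ : ∀ φ, μ φ = T.toFun (cutSm x₁ ε * φ) := fun φ => rfl
  -- the ideal of multipliers killed by `μ`
  let K : Ideal (Sm n) :=
    { carrier := {φ | ∀ ψ, μ (φ * ψ) = 0}
      add_mem' := by
        intro a b ha hb ψ
        rw [add_mul, map_add, ha ψ, hb ψ, add_zero]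
      zero_mem' := by
        intro ψ
        rw [zero_mul, map_zero]
      smul_mem' := by
        intro c a ha ψ
        rw [smul_eq_mul, mul_comm c a, mul_assoc]
        exact ha _ }
  have hKmem : ∀ φ : Sm n, φ ∈ K ↔ ∀ ψ, μ (φ * ψ) = 0 := fun φ => Iff.rfl
  have hex : ∃ m : ℕ, mx x₁ ^ m ≤ K := by
    refine ⟨N + 1, fun φ hφ => ?_⟩
    rw [hKmem]
    intro ψ
    rw [hμ]
    apply hN
    intro x hx
    rcases eq_or_ne x₁ x with rfl | hne
    · exact flat_mul_left (flat_mul_right (flat_of_mem_pow hφ))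
    · exact hcutflat x hx x₁ hx₁ hne _ _
  classical
  have hpos : Nat.find hex ≠ 0 := by
    intro h0
    have h1 := Nat.find_spec hex
    rw [h0, pow_zero, Ideal.one_eq_top] at h1
    have h2 : (1 : Sm n) ∈ K := h1 trivial
    rw [hKmem] at h2
    have := h2 ψ₁
    rw [one_mul, hμ] at this
    exact hψ₁ this
  obtain ⟨d, hd⟩ : ∃ d, Nat.find hex = d + 1 := Nat.exists_eq_succ_of_ne_zero hpos
  have hK1 : mx x₁ ^ (d + 1) ≤ K := hd ▸ Nat.find_spec hex
  have hK0 : ¬ mx x₁ ^ d ≤ K := Nat.find_min hex (by omega)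
  refine ⟨x₁, hx₁, cutSm x₁ ε, d, ?_, ?_, ?_⟩
  · intro φ hφ
    have := (hKmem φ).1 (hK1 hφ) 1
    rwa [mul_one, hμ] at this
  · by_contra hcon
    push Not at hcon
    apply hK0
    have h1 : mx x₁ ^ d = Submodule.span (Sm n) (gens x₁ ^ d) := by
      rw [mx_eq_span]
      exact Submodule.span_pow _ _
    rw [h1, Submodule.span_le]
    intro a ha
    have ha2 : a ∈ mx x₁ ^ d := h1 ▸ Submodule.subset_span ha
    rw [Set.mem_pow] at ha
    obtain ⟨f, hf⟩ := ha
    have hl : ∃ l : List (Matrix (Fin n) (Fin n) ℝ), l.length = d ∧ a = (l.map (lin x₁)).prod := by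
      have hch : ∀ i : Fin d, ∃ B : Matrix (Fin n) (Fin n) ℝ, lin x₁ B = (f i : Sm n) := by
        intro i
        obtain ⟨⟨p, q⟩, hpq⟩ := (f i).2
        exact ⟨Matrix.single p q 1, by rw [lin_single]; exact hpq⟩
      choose B hB using hch
      refine ⟨List.ofFn B, by simp, ?_⟩
      rw [← hf, List.map_ofFn]
      congr 1
      congr 1
      ext1 i
      exact (hB i).symm
    obtain ⟨l, hl, rfl⟩ := hl
    have hpol := polarize (V := Matrix (Fin n) (Fin n) ℝ) (lin x₁) (lin_add x₁)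
      (fun t B => lin_smul x₁ B t) d μ (fun B => hcon B) l hl
    change _ ∈ K
    rw [hKmem]
    intro ψ
    have e1 : (l.map (lin x₁)).prod * ψ
        = (fn ψ x₁) • (l.map (lin x₁)).prod
          + (l.map (lin x₁)).prod * (ψ - algebraMap ℂ (Sm n) (fn ψ x₁)) := by
      rw [mul_sub, Algebra.smul_def, mul_comm (algebraMap ℂ (Sm n) (fn ψ x₁))]
      ring
    have e2 : (l.map (lin x₁)).prod * (ψ - algebraMap ℂ (Sm n) (fn ψ x₁)) ∈ mx x₁ ^ (d + 1) := by
      rw [pow_succ]
      apply Ideal.mul_mem_mul ha2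
      rw [mem_mx]
      have : fn (ψ - algebraMap ℂ (Sm n) (fn ψ x₁)) x₁ = fn ψ x₁ - fn ψ x₁ := rfl
      rw [this, sub_self]
    have e3 := (hKmem _).1 (hK1 e2) 1
    rw [mul_one] at e3
    rw [e1, map_add, map_smul, hpol, e3, smul_zero, add_zero]
  · intro e ψ he
    rw [hdecomp (e * ψ), Finset.sum_eq_single_of_mem x₁ hx₁]
    intro x hx hne
    apply hN
    intro y hy
    rcases eq_or_ne x y with rfl | hxy
    · exact flat_mul_left (flat_mul_right (flat_of_mem_pow (he x hx hne)))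
    · exact hcutflat y hy x hx hxy _ _

end Pool.Agent.H.MP_57d9fd_an
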