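import Mathlib
import Pool.Agent.H.MP_57d9fd_an.Frame
import Pool.Agent.H.MP_57d9fd_an.Jet

/-! The explicit highest weight functions: products of isotropic minors of the projection. -/

open scoped Matrix.Norms.Elementwise ContDiff Topology
open Matrix

namespace Pool.Agent.H.MP_57d9fd_an

variable {n k : ℕ}

/-- complexification of a real matrix -/
abbrev cx (P : Matrix (Fin n) (Fin n) ℝ) : Matrix (Fin n) (Fin n) ℂ := P.map Complex.ofReal

lemma cx_mul (P Q : Matrix (Fin n) (Fin n) ℝ) : cx (P * Q) = cx P * cx Q :=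
  Matrix.map_mul (f := Complex.ofRealHom)

lemma cx_sub (P Q : Matrix (Fin n) (Fin n) ℝ) : cx (P - Q) = cx P - cx Q := by
  ext i j; simp

lemma cx_transpose (P : Matrix (Fin n) (Fin n) ℝ) : cx Pᵀ = (cx P)ᵀ := rfl

/-- the `j × j` matrix `(Z_a · Q Z_b)` -/
def cm (Z : ℕ → Fin n → ℂ) (j : ℕ) (Q : Matrix (Fin n) (Fin n) ℂ) : Matrix (Fin j) (Fin j) ℂ :=
  Matrix.of fun a b => Z a ⬝ᵥ (Q *ᵥ Z b)

/-- the product of powers of minors, as a function of a complex matrix -/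
noncomputable def hc {κ : ℕ} (Z : ℕ → Fin n → ℂ) (m : Fin κ → ℕ) (Q : Matrix (Fin n) (Fin n) ℂ) : ℂ :=
  ∏ j : Fin κ, (cm Z (j + 1) Q).det ^ m j

lemma contDiff_entryC {N : WithTop ℕ∞} (p q : Fin n) :
    ContDiff ℂ N (fun Q : Matrix (Fin n) (Fin n) ℂ => Q p q) := by
  have h2 : ContDiff ℂ N (fun P : Fin n → Fin n → ℂ => P p q) := by fun_prop
  exact h2

lemma contDiff_cm {N : WithTop ℕ∞} (Z : ℕ → Fin n → ℂ) (j : ℕ) (a b : Fin j) :
    ContDiff ℂ N (fun Q : Matrix (Fin n) (Fin n) ℂ => cm Z j Q a b) := by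
  have : (fun Q : Matrix (Fin n) (Fin n) ℂ => cm Z j Q a b)
      = fun Q => ∑ p, Z a p * ∑ q, Q p q * Z b q := rfl
  rw [this]
  apply ContDiff.sum
  intro p _
  apply contDiff_const.mul
  apply ContDiff.sum
  intro q _
  exact (contDiff_entryC p q).mul contDiff_const

lemma contDiff_det {N : WithTop ℕ∞} (Z : ℕ → Fin n → ℂ) (j : ℕ) :
    ContDiff ℂ N (fun Q : Matrix (Fin n) (Fin n) ℂ => (cm Z j Q).det) := by
  simp only [Matrix.det_apply]
  apply ContDiff.sum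
  intro σ _
  apply ContDiff.const_smul
  exact contDiff_prod fun i _ => contDiff_cm Z j _ _

lemma contDiff_hc {κ : ℕ} {N : WithTop ℕ∞} (Z : ℕ → Fin n → ℂ) (m : Fin κ → ℕ) :
    ContDiff ℂ N (hc Z m) := by
  unfold hc
  exact contDiff_prod fun j _ => (contDiff_det Z _).pow _

/-- complexification as a continuous real-linear map -/
noncomputable def cxL : Matrix (Fin n) (Fin n) ℝ →L[ℝ] Matrix (Fin n) (Fin n) ℂ :=
  LinearMap.toContinuousLinearMap
    { toFun := cx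
      map_add' := by intro P Q; ext i j; simp
      map_smul' := by intro c P; ext i j; simp }

lemma cxL_apply (P : Matrix (Fin n) (Fin n) ℝ) : cxL P = cx P := rfl

/-- the minors as smooth functions of a real matrix -/
noncomputable def mnr (Z : ℕ → Fin n → ℂ) (j : ℕ) : Sm n :=
  ⟨fun P => (cm Z j (cx P)).det, by
    change ContDiff ℝ ∞ _
    exact ((contDiff_det (N := ∞) Z j).restrict_scalars ℝ).comp (cxL (n := n)).contDiff⟩

lemma mnr_apply (Z : ℕ → Fin n → ℂ) (j : ℕ) (P : Matrix (Fin n) (Fin n) ℝ) :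
    fn (mnr Z j) P = (cm Z j (cx P)).det := rfl

/-- the products of powers of minors -/
noncomputable def hz {κ : ℕ} (Z : ℕ → Fin n → ℂ) (m : Fin κ → ℕ) : Sm n :=
  ∏ j : Fin κ, mnr Z (j + 1) ^ m j

lemma hz_apply {κ : ℕ} (Z : ℕ → Fin n → ℂ) (m : Fin κ → ℕ) (P : Matrix (Fin n) (Fin n) ℝ) :
    fn (hz Z m) P = hc Z m (cx P) := by
  rw [← ev_apply, hz, map_prod]
  simp only [map_pow, ev_apply, mnr_apply, hc]

lemma lieD_hz {κ : ℕ} (Z : ℕ → Fin n → ℂ) (m : Fin κ → ℕ) (X : Matrix (Fin n) (Fin n) ℂ)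
    (P : Matrix (Fin n) (Fin n) ℝ) :
    lieD X (hz Z m) P = fderiv ℂ (hc Z m) (cx P) (cx P * X - X * cx P) := by
  have hd : HasFDerivAt (hc Z m) (fderiv ℂ (hc Z m) (cx P)) (cx P) :=
    ((contDiff_hc (N := 1) Z m).differentiable (by norm_num) _).hasFDerivAt
  have hfun : ((hz Z m : Sm n) : Matrix (Fin n) (Fin n) ℝ → ℂ) = (hc Z m) ∘ (cxL (n := n)) := by
    ext P; exact hz_apply Z m P
  have hR : HasFDerivAt ((hz Z m : Sm n) : Matrix (Fin n) (Fin n) ℝ → ℂ)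
      (((fderiv ℂ (hc Z m) (cx P)).restrictScalars ℝ).comp (cxL (n := n))) P := by
    rw [hfun]
    exact (hd.restrictScalars ℝ).comp P (cxL (n := n)).hasFDerivAt
  unfold lieD
  rw [hR.fderiv]
  change fderiv ℂ (hc Z m) (cx P) (cx (P * X.map Complex.re - X.map Complex.re * P)) +
    Complex.I * fderiv ℂ (hc Z m) (cx P) (cx (P * X.map Complex.im - X.map Complex.im * P)) = _
  rw [← smul_eq_mul Complex.I, ← map_smul, ← map_add]
  congr 1
  have hX : X = cx (X.map Complex.re) + Complex.I • cx (X.map Complex.im) := by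
    ext i j
    simp only [cx, Matrix.add_apply, Matrix.map_apply, Matrix.smul_apply, smul_eq_mul]
    rw [mul_comm]
    exact (Complex.re_add_im (X i j)).symm
  conv_rhs => rw [hX]
  rw [cx_sub, cx_sub, cx_mul, cx_mul, cx_mul, cx_mul, mul_add, add_mul, Matrix.mul_smul,
    Matrix.smul_mul, smul_sub]
  abel

/-- the effect of a change of frame on `cm` -/
lemma cm_congr (Z : ℕ → Fin n → ℂ) (j : ℕ) (Q : Matrix (Fin n) (Fin n) ℂ)
    (Y : Matrix (Fin n) (Fin n) ℂ) (N : Matrix (Fin j) (Fin j) ℂ)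
    (hY : ∀ b : Fin j, Y *ᵥ Z b = ∑ c : Fin j, N c b • Z c) :
    cm Z j (Yᵀ * Q * Y) = Nᵀ * cm Z j Q * N := by
  ext a b
  have h1 : cm Z j (Yᵀ * Q * Y) a b = (Y *ᵥ Z a) ⬝ᵥ (Q *ᵥ (Y *ᵥ Z b)) := by
    change Z a ⬝ᵥ ((Yᵀ * Q * Y) *ᵥ Z b) = _
    rw [← Matrix.mulVec_mulVec, ← Matrix.mulVec_mulVec, Matrix.dotProduct_mulVec,
      Matrix.vecMul_transpose]
  rw [h1, hY a, hY b, Matrix.mulVec_sum]
  simp only [Matrix.mulVec_smul]
  rw [Matrix.mul_apply]
  simp only [Matrix.mul_apply, Matrix.transpose_apply]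
  simp only [sum_dotProduct, dotProduct_sum, smul_dotProduct, dotProduct_smul, smul_eq_mul]
  apply Finset.sum_congr rfl
  intro d _
  rw [Finset.mul_sum, Finset.sum_mul]
  apply Finset.sum_congr rfl
  intro c _
  change N d b * (N c a * (Z c ⬝ᵥ (Q *ᵥ Z d))) = N c a * (Z c ⬝ᵥ (Q *ᵥ Z d)) * N d b
  ring

/-- derivative along `Q X - X Q` from the growth along the curve `(1 + tX)ᵀ Q (1 + tX)` -/
lemma fderiv_of_curve {f : Matrix (Fin n) (Fin n) ℂ → ℂ} {Q X : Matrix (Fin n) (Fin n) ℂ}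
    (hf : DifferentiableAt ℂ f Q) (hX : Xᵀ = -X) {L : ℕ}
    (h : ∀ t : ℂ, f ((1 + t • X)ᵀ * Q * (1 + t • X)) = (1 + t) ^ L * f Q) :
    fderiv ℂ f Q (Q * X - X * Q) = L * f Q := by
  let A : Matrix (Fin n) (Fin n) ℂ := Q * X - X * Q
  let B : Matrix (Fin n) (Fin n) ℂ := Xᵀ * Q * X
  have hcurve : ∀ t : ℂ, (1 + t • X)ᵀ * Q * (1 + t • X) = Q + t • A + (t ^ 2) • B := by
    intro t
    simp only [A, B, Matrix.transpose_add, Matrix.transpose_one, Matrix.transpose_smul, hX]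
    simp only [add_mul, mul_add, one_mul, mul_one, smul_mul_assoc, mul_smul_comm, smul_neg,
      neg_mul, smul_sub, pow_two, smul_add, mul_smul, neg_smul]
    abel
  have h1 := (hasDerivAt_id (0 : ℂ)).smul_const A
  have h2 := (hasDerivAt_pow 2 (0 : ℂ)).smul_const B
  have hc := (h1.const_add Q).add h2
  simp only [id, one_smul, Nat.cast_ofNat, Nat.add_one_sub_one, pow_one, mul_zero, zero_smul,
    add_zero] at hc
  have hQ0 : Q + (0 : ℂ) • A + ((0 : ℂ) ^ 2) • B = Q := by simp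
  have h3 : HasDerivAt (fun t : ℂ => f (Q + t • A + (t ^ 2) • B)) (fderiv ℂ f Q A) 0 := by
    have hf' : HasFDerivAt f (fderiv ℂ f Q) (Q + (0 : ℂ) • A + ((0 : ℂ) ^ 2) • B) := by
      rw [hQ0]; exact hf.hasFDerivAt
    exact HasFDerivAt.comp_hasDerivAt 0 hf' hc
  have h4 : HasDerivAt (fun t : ℂ => (1 + t) ^ L * f Q) (L * f Q) 0 := by
    have := (((hasDerivAt_id (0 : ℂ)).const_add 1).pow L).mul_const (f Q)
    simpa using this
  have h5 : (fun t : ℂ => f (Q + t • A + (t ^ 2) • B)) = fun t => (1 + t) ^ L * f Q := by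
    ext t; rw [← hcurve, h t]
  rw [h5] at h3
  exact h3.unique h4

lemma wedge_mulVec (u v w : Fin n → ℂ) : wedge u v *ᵥ w = (v ⬝ᵥ w) • u - (u ⬝ᵥ w) • v := by
  unfold wedge
  rw [Matrix.sub_mulVec, Matrix.vecMulVec_mulVec, Matrix.vecMulVec_mulVec]
  simp

lemma wedge_transpose (u v : Fin n → ℂ) : (wedge u v)ᵀ = - wedge u v := by
  unfold wedge
  rw [Matrix.transpose_sub, Matrix.transpose_vecMulVec, Matrix.transpose_vecMulVec, neg_sub]

end Pool.Agent.H.MP_57d9fd_an
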