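import Mathlib
import Pool.Agent.H.MP_57d9fd_an.HW

/-! The explicit functions are highest weight vectors. -/

open scoped Matrix.Norms.Elementwise ContDiff Topology
open Matrix

namespace Pool.Agent.H.MP_57d9fd_an

variable {n k : ℕ}

lemma zv_eq {a : ℕ} (ha : 2 * a + 1 < n) :
    zv n a = Pi.single (⟨2 * a, by omega⟩ : Fin n) (1 : ℂ)
      + Pi.single (⟨2 * a + 1, ha⟩ : Fin n) Complex.I := by
  ext p
  simp only [zv, Pi.add_apply, Pi.single_apply, Fin.ext_iff]
  by_cases h1 : (p : ℕ) = 2 * a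
  · rw [if_pos h1, if_pos h1, if_neg (by omega), add_zero]
  · rw [if_neg h1, if_neg h1, zero_add]

lemma zv_dot {a : ℕ} (ha : 2 * a + 1 < n) (w : Fin n → ℂ) :
    zv n a ⬝ᵥ w = w ⟨2 * a, by omega⟩ + Complex.I * w ⟨2 * a + 1, ha⟩ := by
  rw [zv_eq ha, add_dotProduct, single_dotProduct, single_dotProduct, one_mul]

lemma star_zv_dot {a : ℕ} (ha : 2 * a + 1 < n) (w : Fin n → ℂ) :
    star (zv n a) ⬝ᵥ w = w ⟨2 * a, by omega⟩ - Complex.I * w ⟨2 * a + 1, ha⟩ := by
  have h1 : star (zv n a) = Pi.single (⟨2 * a, by omega⟩ : Fin n) (1 : ℂ)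
      + Pi.single (⟨2 * a + 1, ha⟩ : Fin n) (-Complex.I) := by
    rw [zv_eq ha, star_add]
    congr 1
    · ext p
      simp only [Pi.star_apply, Pi.single_apply]
      split_ifs <;> simp
    · ext p
      simp only [Pi.star_apply, Pi.single_apply]
      split_ifs <;> simp
  rw [h1, add_dotProduct, single_dotProduct, single_dotProduct, one_mul]
  ring

lemma zv_zv {a b : ℕ} (ha : 2 * a + 1 < n) : zv n a ⬝ᵥ zv n b = 0 := by
  rw [zv_dot ha]
  simp only [zv]
  by_cases h : a = b
  · subst h
    simp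
  · rw [if_neg (by omega), if_neg (by omega), if_neg (by omega), if_neg (by omega)]
    simp

lemma star_zv_zv {a b : ℕ} (ha : 2 * a + 1 < n) :
    star (zv n a) ⬝ᵥ zv n b = if b = a then 2 else 0 := by
  rw [star_zv_dot ha]
  simp only [zv]
  by_cases h : b = a
  · subst h
    simp
    norm_num
  · rw [if_neg (by omega), if_neg (by omega), if_neg (by omega), if_neg (by omega), if_neg h]
    simp

/-- the weight corresponding to the exponents `m` -/
def lamOf {κ : ℕ} (m : Fin κ → ℕ) : Fin κ → ℕ :=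
  fun s => 2 * ∑ j : Fin κ, if s ≤ j then m j else 0

lemma extend_lamOf {κ : ℕ} (m : Fin κ → ℕ) (a : ℕ) :
    extend (lamOf m) a = 2 * ∑ j : Fin κ, if a ≤ (j : ℕ) then m j else 0 := by
  unfold extend
  split_ifs with h
  · unfold lamOf
    congr 1
  · symm
    rw [Nat.mul_eq_zero]
    right
    apply Finset.sum_eq_zero
    intro j _
    rw [if_neg]
    have := j.2
    omega

lemma hc_cartan {κ : ℕ} (m : Fin κ → ℕ) {a : ℕ} (ha : 2 * a + 1 < n)
    (Q : Matrix (Fin n) (Fin n) ℂ) (t : ℂ) :
    hc (zv n) m ((1 + t • ((1 / 2 : ℂ) • wedge (zv n a) (star (zv n a))))ᵀ * Q *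
      (1 + t • ((1 / 2 : ℂ) • wedge (zv n a) (star (zv n a)))))
      = (1 + t) ^ (extend (lamOf m) a) * hc (zv n) m Q := by
  set X : Matrix (Fin n) (Fin n) ℂ := (1 / 2 : ℂ) • wedge (zv n a) (star (zv n a)) with hX
  have hXz : ∀ b, X *ᵥ zv n b = if b = a then zv n a else 0 := by
    intro b
    rw [hX, Matrix.smul_mulVec, wedge_mulVec, star_zv_zv ha, zv_zv ha]
    split_ifs with h
    · rw [smul_sub, smul_smul]
      norm_num
    · simp
  unfold hc
  rw [extend_lamOf, Finset.mul_sum]
  have hpow : (1 + t) ^ (∑ j : Fin κ, 2 * (if a ≤ (j : ℕ) then m j else 0))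
      = ∏ j : Fin κ, (1 + t) ^ (2 * (if a ≤ (j : ℕ) then m j else 0)) := by
    rw [Finset.prod_pow_eq_pow_sum]
  rw [hpow, ← Finset.prod_mul_distrib]
  apply Finset.prod_congr rfl
  intro j _
  let N : Matrix (Fin (j + 1)) (Fin (j + 1)) ℂ :=
    Matrix.diagonal fun b => if (b : ℕ) = a then 1 + t else 1
  have hcm := cm_congr (zv n) (j + 1) Q (1 + t • X) N (by
    intro b
    rw [Matrix.add_mulVec, Matrix.one_mulVec, Matrix.smul_mulVec, hXz]
    rw [Finset.sum_eq_single b]
    · simp only [N, Matrix.diagonal_apply_eq]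
      split_ifs with h
      · rw [h, add_smul, one_smul]
      · simp
    · intro c _ hcb
      simp only [N]
      rw [Matrix.diagonal_apply_ne _ hcb, zero_smul]
    · intro h; exact absurd (Finset.mem_univ _) h)
  rw [hcm, Matrix.det_mul, Matrix.det_mul, Matrix.det_transpose]
  have hdet : N.det = if a ≤ (j : ℕ) then 1 + t else 1 := by
    simp only [N, Matrix.det_diagonal]
    by_cases h : a ≤ (j : ℕ)
    · rw [if_pos h, Finset.prod_eq_single (⟨a, by omega⟩ : Fin (j + 1))]
      · simp
      · intro b _ hb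
        rw [if_neg]
        intro hba
        exact hb (Fin.ext hba)
      · intro h'; exact absurd (Finset.mem_univ _) h'
    · rw [if_neg h]
      apply Finset.prod_eq_one
      intro b _
      rw [if_neg]
      have := b.2
      omega
  rw [hdet]
  split_ifs with h
  · rw [mul_pow, mul_pow, pow_mul, sq, mul_pow]; ring
  · simp

lemma hc_raise {κ : ℕ} (m : Fin κ → ℕ) {a : ℕ} (ha : 2 * a + 1 < n) {v : Fin n → ℂ}
    (hv : ∀ b ≤ a, zv n b ⬝ᵥ v = 0) (Q : Matrix (Fin n) (Fin n) ℂ) (t : ℂ) :
    hc (zv n) m ((1 + t • wedge (zv n a) v)ᵀ * Q * (1 + t • wedge (zv n a) v))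
      = (1 + t) ^ 0 * hc (zv n) m Q := by
  have hv' : ∀ b ≤ a, v ⬝ᵥ zv n b = 0 := fun b hb => by rw [dotProduct_comm]; exact hv b hb
  have hXz : ∀ b, wedge (zv n a) v *ᵥ zv n b = (v ⬝ᵥ zv n b) • zv n a := by
    intro b
    rw [wedge_mulVec, zv_zv ha, zero_smul, sub_zero]
  rw [pow_zero, one_mul]
  unfold hc
  apply Finset.prod_congr rfl
  intro j _
  let N : Matrix (Fin (j + 1)) (Fin (j + 1)) ℂ :=
    Matrix.of fun c b => (if c = b then 1 else 0) + if (c : ℕ) = a then t * (v ⬝ᵥ zv n b) else 0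
  have hcm := cm_congr (zv n) (j + 1) Q (1 + t • wedge (zv n a) v) N (by
    intro b
    rw [Matrix.add_mulVec, Matrix.one_mulVec, Matrix.smul_mulVec, hXz, smul_smul]
    simp only [N, Matrix.of_apply, add_smul, Finset.sum_add_distrib]
    congr 1
    · simp
    · by_cases h : a < j + 1
      · rw [Finset.sum_eq_single (⟨a, h⟩ : Fin (j + 1))]
        · simp
        · intro c _ hc
          rw [if_neg, zero_smul]
          intro hca
          exact hc (Fin.ext hca)
        · intro h'; exact absurd (Finset.mem_univ _) h'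
      · have hb : v ⬝ᵥ zv n b = 0 := hv' b (by have := b.2; omega)
        rw [hb]
        symm
        rw [mul_zero, zero_smul]
        apply Finset.sum_eq_zero
        intro c _
        simp)
  rw [hcm, Matrix.det_mul, Matrix.det_mul, Matrix.det_transpose]
  have hdet : N.det = 1 := by
    rw [Matrix.det_of_upperTriangular]
    · apply Finset.prod_eq_one
      intro b _
      simp only [N, Matrix.of_apply, if_true]
      split_ifs with h
      · rw [hv' b h.le]; simp
      · simp
    · intro c b hcb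
      have hcb' : b < c := hcb
      simp only [N, Matrix.of_apply]
      rw [if_neg (ne_of_gt hcb')]
      split_ifs with h
      · rw [hv' b (by have : (b : ℕ) < c := hcb'; omega)]; simp
      · simp
  rw [hdet]
  simp

/-- The products of isotropic minors are highest weight vectors. -/
lemma isHighestWeight_hz {κ : ℕ} (m : Fin κ → ℕ) :
    IsHighestWeight n k (extend (lamOf m)) (hz (zv n) m) := by
  have hdiff : ∀ Q, DifferentiableAt ℂ (hc (n := n) (zv n) m) Q := fun Q =>
    (contDiff_hc (N := 1) (zv n) m).differentiable (by norm_num) _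
  refine ⟨?_, ?_⟩
  · intro a ha P _
    rw [lieD_hz]
    have h2 : ((hz (zv n) m : Sm n) : Matrix (Fin n) (Fin n) ℝ → ℂ) P = hc (zv n) m (cx P) :=
      hz_apply _ _ _
    rw [h2]
    apply fderiv_of_curve (hdiff _)
    · rw [Matrix.transpose_smul, wedge_transpose, smul_neg]
    · exact hc_cartan m ha (cx P)
  · intro a ha v hv P _
    rw [lieD_hz]
    have := fderiv_of_curve (hdiff (cx P)) (wedge_transpose (zv n a) v) (hc_raise m ha hv (cx P))
    simpa using this

end Pool.Agent.H.MP_57d9fd_an
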