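import Mathlib
import Pool.Agent.H.MP_57d9fd_an.HW2

/-! Counting: a syndetic subset of the set of even partitions has positive lower density. -/

namespace Pool.Agent.H.MP_57d9fd_an

open Finset Filter

variable {κ : ℕ}

lemma lamOf_mem (m : Fin κ → ℕ) : lamOf m ∈ Lam κ := by
  refine ⟨?_, fun s => ⟨_, (two_mul _)⟩⟩
  intro s t hst
  unfold lamOf
  apply Nat.mul_le_mul_left
  apply Finset.sum_le_sum
  intro j _
  by_cases h : t ≤ j
  · rw [if_pos h, if_pos (hst.trans h)]
  · rw [if_neg h]; exact Nat.zero_le _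

lemma lamOf_surj {lam : Fin κ → ℕ} (h : lam ∈ Lam κ) : ∃ m, lamOf m = lam := by
  obtain ⟨hanti, heven⟩ := h
  let x : ℕ → ℕ := extend lam
  have hxle : ∀ j, x (j + 1) ≤ x j := by
    intro j
    simp only [x, extend]
    by_cases h1 : j + 1 < κ
    · rw [dif_pos h1, dif_pos (by omega : j < κ)]
      apply hanti
      exact Fin.mk_le_mk.2 (Nat.le_succ j)
    · rw [dif_neg h1]; exact Nat.zero_le _
  have hxe : ∀ j, Even (x j) := by
    intro j
    simp only [x, extend]
    split_ifs with h1
    · exact heven _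
    · exact Even.zero
  let m' : ℕ → ℕ := fun j => (x j - x (j + 1)) / 2
  have hm' : ∀ j, 2 * m' j + x (j + 1) = x j := by
    intro j
    have h1 : Even (x j - x (j + 1)) := by
      rw [Nat.even_sub (hxle j)]
      exact iff_of_true (hxe j) (hxe (j + 1))
    have h2 := Nat.two_mul_div_two_of_even h1
    have h3 := hxle j
    change 2 * ((x j - x (j + 1)) / 2) + x (j + 1) = x j
    omega
  refine ⟨fun j => m' j, ?_⟩
  have key : ∀ e s, s + e = κ → 2 * ∑ j ∈ Finset.range κ, (if s ≤ j then m' j else 0) = x s := by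
    intro e
    induction e with
    | zero =>
      intro s hs
      have h1 : ∑ j ∈ Finset.range κ, (if s ≤ j then m' j else 0) = 0 := by
        apply Finset.sum_eq_zero
        intro j hj
        rw [if_neg]
        have := Finset.mem_range.1 hj
        omega
      rw [h1]
      simp only [x, extend]
      rw [dif_neg (by omega)]
    | succ e ih =>
      intro s hs
      have h1 := ih (s + 1) (by omega)
      have hsk : s ∈ Finset.range κ := Finset.mem_range.2 (by omega)
      have h2 : ∑ j ∈ Finset.range κ, (if s ≤ j then m' j else 0)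
          = m' s + ∑ j ∈ Finset.range κ, (if s + 1 ≤ j then m' j else 0) := by
        rw [← Finset.add_sum_erase _ _ hsk, ← Finset.add_sum_erase (Finset.range κ)
          (fun j => if s + 1 ≤ j then m' j else 0) hsk, if_pos le_rfl, if_neg (by omega), zero_add]
        congr 1
        apply Finset.sum_congr rfl
        intro j hj
        have hne := Finset.ne_of_mem_erase hj
        by_cases h : s ≤ j
        · rw [if_pos h, if_pos (by omega)]
        · rw [if_neg h, if_neg (by omega)]
      rw [h2, mul_add, h1, hm']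
  ext s
  have h1 := key (κ - s) s (by have := s.2; omega)
  unfold lamOf
  have h2 : ∑ j : Fin κ, (if s ≤ j then m' j else 0)
      = ∑ j ∈ Finset.range κ, (if (s : ℕ) ≤ j then m' j else 0) := by
    rw [← Fin.sum_univ_eq_sum_range (fun j => if (s : ℕ) ≤ j then m' j else 0) κ]
    rfl
  rw [h2, h1]
  simp only [x, extend]
  rw [dif_pos s.2]

lemma finite_weights (M : ℕ) : {lam : Fin κ → ℕ | ∑ i, lam i ≤ M}.Finite := by
  apply Set.Finite.subset (Finset.finite_toSet (Fintype.piFinset fun _ : Fin κ => Finset.range (M + 1)))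
  intro lam hlam
  rw [Finset.mem_coe, Fintype.mem_piFinset]
  intro i
  rw [Finset.mem_range]
  have h1 : lam i ≤ ∑ i, lam i := Finset.single_le_sum (fun _ _ => Nat.zero_le _) (Finset.mem_univ i)
  have h2 : ∑ i, lam i ≤ M := hlam
  omega

/-- A subset `S` of `Λ_κ` that meets every box of a fixed size has positive lower density. -/
theorem liminf_pos {S : Set (Fin κ → ℕ)} (hS : S ⊆ Lam κ) (c : ℕ)
    (hsyn : ∀ lam ∈ Lam κ, ∃ lam' ∈ S, ∀ i, lam i ≤ lam' i ∧ lam' i ≤ lam i + c) :
    0 < Filter.liminf (fun m : ℕ =>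
      (Set.ncard {lam : Fin κ → ℕ | lam ∈ S ∧ ∑ i, lam i ≤ 2 * m} : ℝ) /
        (Set.ncard {lam : Fin κ → ℕ | lam ∈ Lam κ ∧ ∑ i, lam i ≤ 2 * m} : ℝ)) atTop := by
  set SS : ℕ → Set (Fin κ → ℕ) := fun m => {lam | lam ∈ S ∧ ∑ i, lam i ≤ 2 * m} with hSS
  set AA : ℕ → Set (Fin κ → ℕ) := fun m => {lam | lam ∈ Lam κ ∧ ∑ i, lam i ≤ 2 * m} with hAA
  have hSfin : ∀ m, (SS m).Finite := fun m =>
    (finite_weights (2 * m)).subset fun lam h => h.2
  have hAfin : ∀ m, (AA m).Finite := fun m =>
    (finite_weights (2 * m)).subset fun lam h => h.2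
  have hAne : ∀ m, (AA m).Nonempty := fun m =>
    ⟨0, ⟨fun _ _ _ => le_rfl, fun _ => Even.zero⟩, by simp⟩
  have hApos : ∀ m, 0 < (AA m).ncard := fun m => (Set.ncard_pos (hAfin m)).2 (hAne m)
  have hSA : ∀ m, (SS m).ncard ≤ (AA m).ncard := fun m =>
    Set.ncard_le_ncard (fun lam h => ⟨hS h.1, h.2⟩) (hAfin m)
  -- the main count
  have hcount : ∀ m, κ * c ≤ m → (AA m).ncard ≤ (2 * c + 4) ^ κ * (SS m).ncard := by
    intro m hm
    let box : (Fin κ → ℕ) → Finset (Fin κ → ℕ) := fun mu =>
      Fintype.piFinset fun i => Finset.Icc (2 * (mu i - c)) (2 * mu i + 3)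
    have hbox : ∀ mu, (box mu).card ≤ (2 * c + 4) ^ κ := by
      intro mu
      rw [Fintype.card_piFinset]
      refine (Finset.prod_le_pow_card _ _ (2 * c + 4) fun i _ => ?_).trans (by simp)
      rw [Nat.card_Icc]
      omega
    have hcover : (hAfin m).toFinset ⊆ (hSfin m).toFinset.biUnion box := by
      intro lam hlam
      rw [Set.Finite.mem_toFinset] at hlam
      obtain ⟨⟨hanti, heven⟩, hsum⟩ := hlam
      -- halve
      have hmu : (fun i => 2 * (lam i / 4)) ∈ Lam κ := by
        refine ⟨fun i j hij => ?_, fun i => ⟨lam i / 4, two_mul _⟩⟩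
        have := hanti hij
        change 2 * (lam j / 4) ≤ 2 * (lam i / 4)
        omega
      obtain ⟨lam', hlam', hle⟩ := hsyn _ hmu
      rw [Finset.mem_biUnion]
      refine ⟨lam', ?_, ?_⟩
      · rw [Set.Finite.mem_toFinset]
        refine ⟨hlam', ?_⟩
        have h1 : ∑ i, lam' i ≤ ∑ i, (2 * (lam i / 4) + c) := Finset.sum_le_sum fun i _ => (hle i).2
        have h2 : ∑ i : Fin κ, (2 * (lam i / 4) + c) = ∑ i, 2 * (lam i / 4) + κ * c := by
          rw [Finset.sum_add_distrib]; simp
        have h3 : 2 * ∑ i, 2 * (lam i / 4) ≤ ∑ i, lam i := by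
          rw [Finset.mul_sum]
          exact Finset.sum_le_sum fun i _ => by omega
        change ∑ i, lam' i ≤ 2 * m
        omega
      · rw [Fintype.mem_piFinset]
        intro i
        rw [Finset.mem_Icc]
        have h1 : 2 * (lam i / 4) ≤ lam' i := (hle i).1
        have h2 : lam' i ≤ 2 * (lam i / 4) + c := (hle i).2
        omega
    rw [Set.ncard_eq_toFinset_card _ (hAfin m), Set.ncard_eq_toFinset_card _ (hSfin m)]
    refine (Finset.card_le_card hcover).trans ?_
    refine Finset.card_biUnion_le.trans ?_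
    refine (Finset.sum_le_card_nsmul _ _ _ fun mu _ => hbox mu).trans ?_
    rw [smul_eq_mul, mul_comm]
  have hev : ∀ᶠ m : ℕ in atTop, (1 : ℝ) / (2 * c + 4) ^ κ ≤ ((SS m).ncard : ℝ) / (AA m).ncard := by
    filter_upwards [eventually_ge_atTop (κ * c)] with m hm
    have h1 := hcount m hm
    have h2 : (0 : ℝ) < (AA m).ncard := by exact_mod_cast hApos m
    have h3 : ((AA m).ncard : ℝ) ≤ (2 * c + 4) ^ κ * (SS m).ncard := by exact_mod_cast h1
    rw [div_le_div_iff₀ (by positivity) h2]
    linarith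
  have hbdd : IsBoundedUnder (· ≤ ·) atTop (fun m : ℕ => ((SS m).ncard : ℝ) / (AA m).ncard) := by
    refine isBoundedUnder_of ⟨1, fun m => ?_⟩
    have h2 : (0 : ℝ) < (AA m).ncard := by exact_mod_cast hApos m
    rw [div_le_one h2]
    exact_mod_cast hSA m
  have hpos : (0 : ℝ) < 1 / (2 * c + 4) ^ κ := by positivity
  exact hpos.trans_le (le_liminf_of_le hbdd.isCoboundedUnder_ge hev)

end Pool.Agent.H.MP_57d9fd_an
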