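import Mathlib
import Pool.Agent.H.MP_57d9fd_an.HW2

/-! Local computation of the minors at an adapted point of the Grassmannian. -/

open scoped Matrix.Norms.Elementwise ContDiff Topology
open Matrix

namespace Pool.Agent.H.MP_57d9fd_an

variable {n k : ℕ}

section det
variable {A : Type*} [CommRing A] (I : Ideal A)

lemma prod_one_add_mem {ι : Type*} [DecidableEq ι] (s : Finset ι) (f : ι → A) (hf : ∀ i, f i ∈ I) :
    ∏ i ∈ s, (1 + f i) - 1 - ∑ i ∈ s, f i ∈ I ^ 2 := by
  induction s using Finset.induction_on with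
  | empty => simp
  | insert a s ha ih =>
    rw [Finset.prod_insert ha, Finset.sum_insert ha]
    have h1 : (1 + f a) * ∏ i ∈ s, (1 + f i) - 1 - (f a + ∑ i ∈ s, f i)
        = (∏ i ∈ s, (1 + f i) - 1 - ∑ i ∈ s, f i) + f a * (∏ i ∈ s, (1 + f i) - 1) := by ring
    rw [h1]
    apply Ideal.add_mem _ ih
    rw [sq]
    apply Ideal.mul_mem_mul (hf a)
    have h2 : ∏ i ∈ s, (1 + f i) - 1 = (∏ i ∈ s, (1 + f i) - 1 - ∑ i ∈ s, f i) + ∑ i ∈ s, f i := by
      ring
    rw [h2]
    exact Ideal.add_mem _ (Ideal.pow_le_self two_ne_zero ih) (Ideal.sum_mem _ fun i _ => hf i)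

lemma det_one_add_mem {j : ℕ} (Y : Matrix (Fin j) (Fin j) A) (hY : ∀ a b, Y a b ∈ I) :
    (1 + Y).det - 1 - ∑ a, Y a a ∈ I ^ 2 := by
  rw [Matrix.det_apply, ← Finset.add_sum_erase _ _ (Finset.mem_univ (1 : Equiv.Perm (Fin j)))]
  have h1 : (Equiv.Perm.sign (1 : Equiv.Perm (Fin j))) • ∏ i, (1 + Y) ((1 : Equiv.Perm (Fin j)) i) i
      = ∏ i, (1 + Y i i) := by
    simp
  rw [h1]
  have h2 : ∏ i, (1 + Y i i) + ∑ σ ∈ Finset.univ.erase (1 : Equiv.Perm (Fin j)),
      (Equiv.Perm.sign σ) • ∏ i, (1 + Y) (σ i) i - 1 - ∑ a, Y a a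
      = (∏ i, (1 + Y i i) - 1 - ∑ a, Y a a) + ∑ σ ∈ Finset.univ.erase (1 : Equiv.Perm (Fin j)),
      (Equiv.Perm.sign σ) • ∏ i, (1 + Y) (σ i) i := by ring
  rw [h2]
  apply Ideal.add_mem _ (prod_one_add_mem I _ _ fun i => hY i i)
  apply Ideal.sum_mem
  intro σ hσ
  have hσ1 : σ ≠ 1 := Finset.ne_of_mem_erase hσ
  have hprod : ∏ i, (1 + Y) (σ i) i ∈ I ^ 2 := by
    obtain ⟨a, ha⟩ : ∃ a, σ a ≠ a := by
      by_contra h
      push Not at h
      exact hσ1 (Equiv.ext h)
    have hb : σ (σ a) ≠ σ a := fun h => ha (σ.injective h)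
    rw [← Finset.mul_prod_erase _ _ (Finset.mem_univ a),
      ← Finset.mul_prod_erase _ _ (Finset.mem_erase.2 ⟨ha, Finset.mem_univ (σ a)⟩), ← mul_assoc, sq]
    apply Ideal.mul_mem_right
    apply Ideal.mul_mem_mul
    · rw [Matrix.add_apply, Matrix.one_apply_ne ha, zero_add]; exact hY _ _
    · rw [Matrix.add_apply, Matrix.one_apply_ne hb, zero_add]; exact hY _ _
  rw [Units.smul_def, zsmul_eq_mul]
  exact Ideal.mul_mem_left _ _ hprod

end det

/-- functions vanishing on the Grassmannian -/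
def vg (n k : ℕ) : Ideal (Sm n) where
  carrier := {φ | ∀ P ∈ Gr n k, fn φ P = 0}
  add_mem' := by
    intro a b ha hb P hP
    have : fn (a + b) P = fn a P + fn b P := rfl
    rw [this, ha P hP, hb P hP, add_zero]
  zero_mem' := by
    intro P _; rfl
  smul_mem' := by
    intro c a ha P hP
    have : fn (c • a) P = fn c P * fn a P := rfl
    rw [this, ha P hP, mul_zero]

lemma mem_vg {φ : Sm n} : φ ∈ vg n k ↔ ∀ P ∈ Gr n k, fn φ P = 0 := Iff.rfl

/-- the ideal of second order functions modulo functions vanishing on the Grassmannian -/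
def jd (n k : ℕ) (x : Matrix (Fin n) (Fin n) ℝ) : Ideal (Sm n) := mx x ^ 2 ⊔ vg n k

lemma lin_apply (x B P : Matrix (Fin n) (Fin n) ℝ) :
    fn (lin x B) P = ((∑ p, ∑ q, B p q * (P - x) p q : ℝ) : ℂ) := by
  rw [← ev_apply, lin, map_sum]
  push_cast
  apply Finset.sum_congr rfl
  intro p _
  rw [map_sum]
  apply Finset.sum_congr rfl
  intro q _
  rw [map_smul, ev_apply, dl_apply]
  simp

lemma lin_mem (x B : Matrix (Fin n) (Fin n) ℝ) : lin x B ∈ mx x := by
  rw [mem_mx, lin_apply]; simp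

lemma trace_tr_mul (D S : Matrix (Fin n) (Fin n) ℝ) :
    (Dᵀ * S).trace = ∑ p, ∑ q, D p q * S p q := by
  rw [Matrix.trace, Finset.sum_comm]
  apply Finset.sum_congr rfl
  intro q _
  rw [Matrix.diag_apply, Matrix.mul_apply]
  rfl

lemma lin_apply_trace (x B P : Matrix (Fin n) (Fin n) ℝ) :
    fn (lin x B) P = ((Bᵀ * (P - x)).trace : ℝ) := by
  rw [lin_apply, trace_tr_mul]

/-- the quadratic form `P ↦ ∑ D_{pq} ((P - x)²)_{pq}` -/
noncomputable def quad2 (x D : Matrix (Fin n) (Fin n) ℝ) : Sm n :=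
  ∑ p, ∑ q, ∑ c, ((D p q : ℝ) : ℂ) • (dl x p c * dl x c q)

lemma quad2_mem (x D : Matrix (Fin n) (Fin n) ℝ) : quad2 x D ∈ mx x ^ 2 := by
  unfold quad2
  apply Ideal.sum_mem
  intro p _
  apply Ideal.sum_mem
  intro q _
  apply Ideal.sum_mem
  intro c _
  rw [Algebra.smul_def]
  apply Ideal.mul_mem_left
  rw [sq]
  exact Ideal.mul_mem_mul (dl_mem _ _ _) (dl_mem _ _ _)

lemma quad2_apply (x D P : Matrix (Fin n) (Fin n) ℝ) :
    fn (quad2 x D) P = ((Dᵀ * ((P - x) * (P - x))).trace : ℝ) := by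
  rw [trace_tr_mul, ← ev_apply, quad2, map_sum]
  push_cast
  apply Finset.sum_congr rfl
  intro p _
  rw [map_sum]
  apply Finset.sum_congr rfl
  intro q _
  rw [map_sum, Matrix.mul_apply]
  push_cast
  rw [Finset.mul_sum]
  apply Finset.sum_congr rfl
  intro c _
  rw [map_smul, map_mul, ev_apply, ev_apply, dl_apply, dl_apply]
  simp

/-- On the Grassmannian a linear form is, to first order, determined by its off-diagonal part. -/
lemma lin_sub_mem {x : Matrix (Fin n) (Fin n) ℝ} (hx : x ∈ Gr n k)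
    (B : Matrix (Fin n) (Fin n) ℝ) :
    lin x B - lin x (x * (B + Bᵀ) * (1 - x)) ∈ jd n k x := by
  have hxT : xᵀ = x := hx.1
  have hxx : x * x = x := hx.2.1
  set D : Matrix (Fin n) (Fin n) ℝ := (1 - x) * B * (1 - x) - x * B * x with hD
  have h1 : lin x B - lin x (x * (B + Bᵀ) * (1 - x)) =
      quad2 x D + (lin x B - lin x (x * (B + Bᵀ) * (1 - x)) - quad2 x D) := by ring
  rw [h1]
  apply Ideal.add_mem
  · exact Ideal.mem_sup_left (quad2_mem x D)
  apply Ideal.mem_sup_right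
  rw [mem_vg]
  intro P hP
  have hPT : Pᵀ = P := hP.1
  have hPP : P * P = P := hP.2.1
  have e1 : fn (lin x B - lin x (x * (B + Bᵀ) * (1 - x)) - quad2 x D) P
      = fn (lin x B) P - fn (lin x (x * (B + Bᵀ) * (1 - x))) P - fn (quad2 x D) P := rfl
  rw [e1, lin_apply_trace, lin_apply_trace, quad2_apply, ← Complex.ofReal_sub, ← Complex.ofReal_sub]
  norm_cast
  set δ : Matrix (Fin n) (Fin n) ℝ := P - x with hδ
  have hδT : δᵀ = δ := by rw [hδ, Matrix.transpose_sub, hPT, hxT]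
  have hδeq : x * δ + δ * x + δ * δ = δ := by
    rw [hδ]
    simp only [mul_sub, sub_mul, hPP, hxx]
    abel
  -- the two diagonal blocks
  have hxδx : x * δ * x = - (x * (δ * δ) * x) := by
    have h2 : x * (x * δ + δ * x + δ * δ) * x = x * δ * x := by rw [hδeq]
    have h3 : x * (x * δ + δ * x + δ * δ) * x = x * δ * x + x * δ * x + x * (δ * δ) * x := by
      simp only [mul_add, add_mul]
      congr 1
      congr 1
      · rw [← mul_assoc x x δ, hxx]
      · rw [← mul_assoc x δ x, mul_assoc (x * δ) x x, hxx]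
    rw [h3] at h2
    have h4 : x * δ * x + (x * δ * x + x * (δ * δ) * x) = x * δ * x + 0 := by
      rw [add_zero, ← add_assoc]; exact h2
    have h5 := add_left_cancel h4
    exact eq_neg_of_add_eq_zero_left h5
  set y : Matrix (Fin n) (Fin n) ℝ := 1 - x with hy
  have hyT : yᵀ = y := by rw [hy, Matrix.transpose_sub, Matrix.transpose_one, hxT]
  have hyx : y * x = 0 := by rw [hy, sub_mul, one_mul, hxx, sub_self]
  have hxy : x * y = 0 := by rw [hy, mul_sub, mul_one, hxx, sub_self]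
  have hyy : y * y = y := by rw [hy, sub_mul, one_mul, mul_sub, mul_one, hxx, sub_self, sub_zero]
  have hyδy : y * δ * y = y * (δ * δ) * y := by
    have h2 : y * (x * δ + δ * x + δ * δ) * y = y * δ * y := by rw [hδeq]
    rw [← h2]
    simp only [mul_add, add_mul]
    have h3 : y * (x * δ) * y = 0 := by rw [← mul_assoc y x δ, hyx, zero_mul, zero_mul]
    have h4 : y * (δ * x) * y = 0 := by
      rw [← mul_assoc y δ x, mul_assoc (y * δ) x y, hxy, mul_zero]
    rw [h3, h4, zero_add, zero_add]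
  have hsplit : δ = x * δ * x + x * δ * y + y * δ * x + y * δ * y := by
    have h2 : x + y = 1 := by rw [hy]; abel
    have h3 : δ = (x + y) * δ * (x + y) := by rw [h2, one_mul, mul_one]
    conv_lhs => rw [h3]
    simp only [add_mul, mul_add]
    abel
  -- traces
  have t1 : (Bᵀ * (x * δ * x)).trace = - ((x * B * x)ᵀ * (δ * δ)).trace := by
    rw [hxδx, mul_neg, Matrix.trace_neg]
    congr 1
    rw [Matrix.transpose_mul, Matrix.transpose_mul, hxT]
    rw [show Bᵀ * (x * (δ * δ) * x) = (Bᵀ * x * (δ * δ)) * x by simp only [mul_assoc],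
      Matrix.trace_mul_comm]
    simp only [mul_assoc]
  have t2 : (Bᵀ * (y * δ * y)).trace = ((y * B * y)ᵀ * (δ * δ)).trace := by
    rw [hyδy]
    rw [Matrix.transpose_mul, Matrix.transpose_mul, hyT]
    rw [show Bᵀ * (y * (δ * δ) * y) = (Bᵀ * y * (δ * δ)) * y by simp only [mul_assoc],
      Matrix.trace_mul_comm]
    simp only [mul_assoc]
  have t3 : (Bᵀ * (x * δ * y)).trace = ((x * B * y)ᵀ * δ).trace := by
    rw [Matrix.transpose_mul, Matrix.transpose_mul, hyT, hxT]
    rw [show Bᵀ * (x * δ * y) = (Bᵀ * x * δ) * y by simp only [mul_assoc],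
      Matrix.trace_mul_comm]
    simp only [mul_assoc]
  have t4 : (Bᵀ * (y * δ * x)).trace = ((x * Bᵀ * y)ᵀ * δ).trace := by
    rw [← Matrix.trace_transpose (Bᵀ * (y * δ * x))]
    simp only [Matrix.transpose_mul, Matrix.transpose_transpose, hyT, hxT, hδT]
    rw [show x * (δ * y) * B = x * (δ * y * B) by simp only [mul_assoc], Matrix.trace_mul_comm,
      show δ * y * B * x = δ * (y * (B * x)) by simp only [mul_assoc], Matrix.trace_mul_comm]
  have t5 : (Bᵀ * δ).trace = - ((x * B * x)ᵀ * (δ * δ)).trace + ((x * B * y)ᵀ * δ).trace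
      + ((x * Bᵀ * y)ᵀ * δ).trace + ((y * B * y)ᵀ * (δ * δ)).trace := by
    conv_lhs => rw [hsplit]
    rw [mul_add, mul_add, mul_add, Matrix.trace_add, Matrix.trace_add, Matrix.trace_add, t1, t2, t3,
      t4]
  have t6 : ((x * (B + Bᵀ) * y)ᵀ * δ).trace = ((x * B * y)ᵀ * δ).trace + ((x * Bᵀ * y)ᵀ * δ).trace := by
    rw [← Matrix.trace_add, ← add_mul, ← Matrix.transpose_add, ← add_mul, ← mul_add]
  have t7 : (Dᵀ * (δ * δ)).trace = ((y * B * y)ᵀ * (δ * δ)).trace - ((x * B * x)ᵀ * (δ * δ)).trace := by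
    rw [hD, Matrix.transpose_sub, sub_mul, Matrix.trace_sub]
  rw [t5, t6, t7]
  ring

end Pool.Agent.H.MP_57d9fd_an
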