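import Mathlib
import Pool.Agent.H.MP_57d9fd_an.Local

/-! Adapted frames: separation of points and first order expansion of the minors. -/

open scoped Matrix.Norms.Elementwise ContDiff Topology
open Matrix

namespace Pool.Agent.H.MP_57d9fd_an

variable {n k : ℕ}

/-- complexification of a vector -/
def cv (u : Fin n → ℝ) : Fin n → ℂ := fun p => (u p : ℂ)

lemma cv_dot (u w : Fin n → ℝ) : cv u ⬝ᵥ cv w = ((u ⬝ᵥ w : ℝ) : ℂ) := by
  simp [cv, dotProduct]

lemma cx_mulVec_cv (P : Matrix (Fin n) (Fin n) ℝ) (u : Fin n → ℝ) :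
    cx P *ᵥ cv u = cv (P *ᵥ u) := by
  ext p
  simp [cv, Matrix.mulVec, dotProduct]

/-- A frame adapted to the point `x`. -/
structure Adapted (x : Matrix (Fin n) (Fin n) ℝ) (a b : Fin (kap n k) → Fin n → ℝ)
    (Z : ℕ → Fin n → ℂ) : Prop where
  xa : ∀ s, x *ᵥ a s = a s
  xb : ∀ s, x *ᵥ b s = 0
  aa : ∀ s t, a s ⬝ᵥ a t = if s = t then 1 else 0
  bb : ∀ s t, b s ⬝ᵥ b t = if s = t then 1 else 0
  ab : ∀ s t, a s ⬝ᵥ b t = 0
  Zeq : ∀ s : Fin (kap n k), Z s = cv (a s) + Complex.I • cv (b s)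

variable {x : Matrix (Fin n) (Fin n) ℝ} {a b : Fin (kap n k) → Fin n → ℝ} {Z : ℕ → Fin n → ℂ}

lemma Adapted.ba (h : Adapted (k := k) x a b Z) (s t : Fin (kap n k)) : b s ⬝ᵥ a t = 0 := by
  rw [dotProduct_comm]; exact h.ab t s

lemma Adapted.Z_dot_a (h : Adapted (k := k) x a b Z) (s t : Fin (kap n k)) :
    Z s ⬝ᵥ cv (a t) = if s = t then 1 else 0 := by
  rw [h.Zeq, add_dotProduct, smul_dotProduct, cv_dot, cv_dot, h.aa, h.ba]
  split_ifs <;> simp

lemma Adapted.a_dot_Z (h : Adapted (k := k) x a b Z) (s t : Fin (kap n k)) :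
    cv (a s) ⬝ᵥ Z t = if s = t then 1 else 0 := by
  rw [dotProduct_comm, h.Z_dot_a]
  simp [eq_comm]

/-- If a projection `y` fixes `a t` and kills `b t`, then it maps `Z t` to `a t`. -/
lemma Adapted.mulVec_Z (h : Adapted (k := k) x a b Z) {y : Matrix (Fin n) (Fin n) ℝ}
    {t : Fin (kap n k)} (h1 : y *ᵥ a t = a t) (h2 : y *ᵥ b t = 0) : cx y *ᵥ Z t = cv (a t) := by
  rw [h.Zeq, Matrix.mulVec_add, Matrix.mulVec_smul, cx_mulVec_cv, cx_mulVec_cv, h1, h2]
  ext p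
  simp [cv]

lemma sym_dot {y : Matrix (Fin n) (Fin n) ℂ} (hy : yᵀ = y) (u w : Fin n → ℂ) :
    u ⬝ᵥ (y *ᵥ w) = (y *ᵥ u) ⬝ᵥ w := by
  rw [Matrix.dotProduct_mulVec, ← Matrix.mulVec_transpose, hy]

lemma sym_dotR {y : Matrix (Fin n) (Fin n) ℝ} (hy : yᵀ = y) (u w : Fin n → ℝ) :
    u ⬝ᵥ (y *ᵥ w) = (y *ᵥ u) ⬝ᵥ w := by
  rw [Matrix.dotProduct_mulVec, ← Matrix.mulVec_transpose, hy]

lemma dot_self_nonneg (u : Fin n → ℝ) : 0 ≤ u ⬝ᵥ u := by
  simp only [dotProduct]
  exact Finset.sum_nonneg fun i _ => mul_self_nonneg _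

lemma dot_self_eq_zero {u : Fin n → ℝ} (h : u ⬝ᵥ u = 0) : u = 0 := by
  simpa using h

/-- for a projection `y`, `|y u|² ≤ |u|²` and the difference is `|u - y u|²` -/
lemma proj_dot {y : Matrix (Fin n) (Fin n) ℝ} (hy : y ∈ Gr n k) (u : Fin n → ℝ) :
    u ⬝ᵥ u = (y *ᵥ u) ⬝ᵥ (y *ᵥ u) + (u - y *ᵥ u) ⬝ᵥ (u - y *ᵥ u) := by
  have h1 : (y *ᵥ u) ⬝ᵥ (y *ᵥ u) = u ⬝ᵥ (y *ᵥ u) := by
    rw [← sym_dotR hy.1, Matrix.mulVec_mulVec, hy.2.1]
  rw [sub_dotProduct, dotProduct_sub, dotProduct_sub, h1, dotProduct_comm (y *ᵥ u) u]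
  ring

lemma cx_sym {y : Matrix (Fin n) (Fin n) ℝ} (hy : y ∈ Gr n k) : (cx y)ᵀ = cx y := by
  rw [← cx_transpose, hy.1]

/-- All minors equal to one forces the frame to be adapted to `y` as well. -/
lemma Adapted.fix (h : Adapted (k := k) x a b Z) {y : Matrix (Fin n) (Fin n) ℝ} (hy : y ∈ Gr n k)
    (h1 : ∀ j : Fin (kap n k), fn (mnr Z (j + 1)) y = 1) :
    ∀ s : Fin (kap n k), y *ᵥ a s = a s ∧ y *ᵥ b s = 0 := by
  have key : ∀ m : ℕ, ∀ hm : m < kap n k, y *ᵥ a ⟨m, hm⟩ = a ⟨m, hm⟩ ∧ y *ᵥ b ⟨m, hm⟩ = 0 := by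
    intro m
    induction m using Nat.strong_induction_on with
    | _ m ih =>
    intro hm
    set s : Fin (kap n k) := ⟨m, hm⟩ with hs
    have h2 := h1 s
    rw [mnr_apply] at h2
    -- the matrix is diagonal
    have hdiag : cm Z (s + 1) (cx y) = Matrix.diagonal fun c : Fin (s + 1) =>
        if (c : ℕ) = m then Z s ⬝ᵥ (cx y *ᵥ Z s) else 1 := by
      ext c d
      change Z c ⬝ᵥ (cx y *ᵥ Z d) = _
      have hc : (c : ℕ) ≤ m := Nat.lt_succ_iff.1 c.2
      have hd : (d : ℕ) ≤ m := Nat.lt_succ_iff.1 d.2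
      rcases lt_or_eq_of_le hd with hd' | hd'
      · -- `d < m`
        have hdk : (d : ℕ) < kap n k := hd'.trans hm
        obtain ⟨e1, e2⟩ := ih d hd' hdk
        have e3 : cx y *ᵥ Z (d : ℕ) = cv (a ⟨d, hdk⟩) := h.mulVec_Z (t := ⟨d, hdk⟩) e1 e2
        have e4 : Z (c : ℕ) ⬝ᵥ cv (a ⟨d, hdk⟩) = if (⟨c, hc.trans_lt hm⟩ : Fin (kap n k)) = ⟨d, hdk⟩
          then 1 else 0 := h.Z_dot_a ⟨c, hc.trans_lt hm⟩ ⟨d, hdk⟩
        rw [e3, e4, Matrix.diagonal_apply]
        by_cases hcd : c = d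
        · subst hcd
          rw [if_pos rfl, if_pos rfl, if_neg (ne_of_lt hd')]
        · rw [if_neg, if_neg hcd]
          intro h'
          apply hcd
          have h'' : (c : ℕ) = d := by simpa using h'
          exact Fin.ext h''
      · rcases lt_or_eq_of_le hc with hc' | hc'
        · have hck : (c : ℕ) < kap n k := hc'.trans hm
          obtain ⟨e1, e2⟩ := ih c hc' hck
          have e3 : cx y *ᵥ Z (c : ℕ) = cv (a ⟨c, hck⟩) := h.mulVec_Z (t := ⟨c, hck⟩) e1 e2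
          rw [sym_dot (cx_sym hy), e3]
          have e4 : cv (a ⟨c, hck⟩) ⬝ᵥ Z (d : ℕ) = if (⟨c, hck⟩ : Fin (kap n k)) = ⟨d, hd.trans_lt hm⟩
            then 1 else 0 := h.a_dot_Z ⟨c, hck⟩ ⟨d, hd.trans_lt hm⟩
          rw [e4, Matrix.diagonal_apply, if_neg, if_neg]
          · intro h'
            rw [h'] at hc'
            omega
          · intro h'
            have := congrArg Fin.val h'
            simp only at this
            omega
        · have hcd : c = d := Fin.ext (hc'.trans hd'.symm)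
          subst hcd
          rw [Matrix.diagonal_apply_eq, if_pos hc', hc']
    rw [hdiag, Matrix.det_diagonal] at h2
    rw [Finset.prod_eq_single (⟨m, Nat.lt_succ_self m⟩ : Fin (s + 1))] at h2
    rotate_left
    · intro c _ hc
      rw [if_neg]
      intro h'
      exact hc (Fin.ext h')
    · intro h'; exact absurd (Finset.mem_univ _) h'
    rw [if_pos rfl] at h2
    -- compute the quadratic form
    have h3 : Z s ⬝ᵥ (cx y *ᵥ Z s) = ((a s ⬝ᵥ (y *ᵥ a s) - b s ⬝ᵥ (y *ᵥ b s) : ℝ) : ℂ)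
        + Complex.I * ((a s ⬝ᵥ (y *ᵥ b s) + b s ⬝ᵥ (y *ᵥ a s) : ℝ) : ℂ) := by
      rw [h.Zeq s, Matrix.mulVec_add, Matrix.mulVec_smul, cx_mulVec_cv, cx_mulVec_cv]
      simp only [add_dotProduct, dotProduct_add, smul_dotProduct, dotProduct_smul, cv_dot,
        smul_eq_mul]
      push_cast
      linear_combination (((b s) ⬝ᵥ (y *ᵥ b s) : ℝ) : ℂ) * Complex.I_mul_I
    rw [h3] at h2
    have h4 := congrArg Complex.re h2
    simp only [Complex.add_re, Complex.ofReal_re, Complex.mul_re, Complex.I_re, zero_mul,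
      Complex.I_im, Complex.ofReal_im, mul_zero, sub_zero, add_zero, Complex.one_re] at h4
    have ha := proj_dot hy (a s)
    have hb := proj_dot hy (b s)
    have ha1 : a s ⬝ᵥ (y *ᵥ a s) = (y *ᵥ a s) ⬝ᵥ (y *ᵥ a s) := by
      conv_rhs => rw [← sym_dotR hy.1, Matrix.mulVec_mulVec, hy.2.1]
    have hb1 : b s ⬝ᵥ (y *ᵥ b s) = (y *ᵥ b s) ⬝ᵥ (y *ᵥ b s) := by
      conv_rhs => rw [← sym_dotR hy.1, Matrix.mulVec_mulVec, hy.2.1]
    rw [ha1, hb1] at h4
    have haa := h.aa s s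
    rw [if_pos rfl] at haa
    have p1 := dot_self_nonneg (a s - y *ᵥ a s)
    have p2 := dot_self_nonneg (y *ᵥ b s)
    have q1 : (a s - y *ᵥ a s) ⬝ᵥ (a s - y *ᵥ a s) = 0 := by linarith
    have q2 : (y *ᵥ b s) ⬝ᵥ (y *ᵥ b s) = 0 := by linarith
    exact ⟨(sub_eq_zero.1 (dot_self_eq_zero q1)).symm, dot_self_eq_zero q2⟩
  intro s
  exact key s s.2

/-- a symmetric idempotent of trace zero vanishes -/
lemma idem_zero {S : Matrix (Fin n) (Fin n) ℝ} (h1 : Sᵀ = S) (h2 : S * S = S) (h3 : S.trace = 0) :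
    S = 0 := by
  rw [← Matrix.trace_conjTranspose_mul_self_eq_zero_iff, Matrix.conjTranspose_eq_transpose_of_trivial,
    h1, h2, h3]

/-- A projection fixing an orthonormal system of maximal length is determined. -/
lemma eq_sum_of_fix {κ : ℕ} {y : Matrix (Fin n) (Fin n) ℝ} (hT : yᵀ = y) (hI : y * y = y)
    (htr : y.trace = κ) {c : Fin κ → Fin n → ℝ} (hc : ∀ s, y *ᵥ c s = c s)
    (hcc : ∀ s t, c s ⬝ᵥ c t = if s = t then 1 else 0) :
    y = ∑ s, vecMulVec (c s) (c s) := by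
  set R := ∑ s, vecMulVec (c s) (c s) with hR
  have hRT : Rᵀ = R := by
    rw [hR, Matrix.transpose_sum]
    exact Finset.sum_congr rfl fun s _ => Matrix.transpose_vecMulVec _ _
  have hyR : y * R = R := by
    rw [hR, Finset.mul_sum]
    apply Finset.sum_congr rfl
    intro s _
    rw [Matrix.mul_vecMulVec, hc]
  have hRy : R * y = R := by
    have := congrArg Matrix.transpose hyR
    rwa [Matrix.transpose_mul, hRT, hT] at this
  have hRR : R * R = R := by
    conv_lhs => rw [hR]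
    rw [Finset.sum_mul]
    simp only [Finset.mul_sum, Matrix.vecMulVec_mul_vecMulVec, hcc]
    rw [hR]
    apply Finset.sum_congr rfl
    intro s _
    rw [Finset.sum_eq_single s]
    · simp
    · intro t _ hts
      rw [if_neg (Ne.symm hts), zero_smul]
      ext p q
      simp [vecMulVec_apply]
    · intro h; exact absurd (Finset.mem_univ _) h
  have hRtr : R.trace = κ := by
    rw [hR, Matrix.trace_sum]
    simp [Matrix.trace_vecMulVec, hcc]
  have := idem_zero (S := y - R) (by rw [Matrix.transpose_sub, hT, hRT])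
    (by rw [sub_mul, mul_sub, mul_sub, hI, hyR, hRy, hRR]; abel)
    (by rw [Matrix.trace_sub, htr, hRtr, sub_self])
  exact sub_eq_zero.1 this

/-- The adapted frame separates `x` from the other points of the Grassmannian. -/
lemma Adapted.sep (h : Adapted (k := k) x a b Z) (hk : k ≤ n) (hx : x ∈ Gr n k)
    {y : Matrix (Fin n) (Fin n) ℝ} (hy : y ∈ Gr n k)
    (h1 : ∀ j : Fin (kap n k), fn (mnr Z (j + 1)) y = 1) : y = x := by
  have hfix := h.fix hy h1
  rcases le_total k (n - k) with hkk | hkk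
  · have hkap : kap n k = k := min_eq_left hkk
    have e1 := eq_sum_of_fix hy.1 hy.2.1 (κ := kap n k) (by rw [hy.2.2, hkap]) (c := a)
      (fun s => (hfix s).1) h.aa
    have e2 := eq_sum_of_fix hx.1 hx.2.1 (κ := kap n k) (by rw [hx.2.2, hkap]) (c := a)
      h.xa h.aa
    rw [e1, e2]
  · have hkap : kap n k = n - k := min_eq_right hkk
    have hcast : ((n - k : ℕ) : ℝ) = (n : ℝ) - k := by rw [Nat.cast_sub hk]
    have e1 := eq_sum_of_fix (y := 1 - y) (by rw [Matrix.transpose_sub, Matrix.transpose_one, hy.1])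
      (by rw [sub_mul, one_mul, mul_sub, mul_one, hy.2.1, sub_self, sub_zero]) (κ := kap n k)
      (by rw [Matrix.trace_sub, hy.2.2, hkap, hcast]; simp) (c := b)
      (fun s => by rw [Matrix.sub_mulVec, Matrix.one_mulVec, (hfix s).2, sub_zero]) h.bb
    have e2 := eq_sum_of_fix (y := 1 - x) (by rw [Matrix.transpose_sub, Matrix.transpose_one, hx.1])
      (by rw [sub_mul, one_mul, mul_sub, mul_one, hx.2.1, sub_self, sub_zero]) (κ := kap n k)
      (by rw [Matrix.trace_sub, hx.2.2, hkap, hcast]; simp) (c := b)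
      (fun s => by rw [Matrix.sub_mulVec, Matrix.one_mulVec, h.xb, sub_zero]) h.bb
    have e3 : 1 - y = 1 - x := by rw [e1, e2]
    exact sub_right_injective e3

end Pool.Agent.H.MP_57d9fd_an
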