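import Mathlib
import Pool.Agent.H.MP_57d9fd_an.Sep

/-! First order expansion of the minors at an adapted point. -/

open scoped Matrix.Norms.Elementwise ContDiff Topology
open Matrix

namespace Pool.Agent.H.MP_57d9fd_an

variable {n k : ℕ}

/-- the linear function `P ↦ uᵀ (P - x) w` -/
noncomputable def qd (x : Matrix (Fin n) (Fin n) ℝ) (u w : Fin n → ℂ) : Sm n :=
  ∑ p, ∑ q, (u p * w q) • dl x p q

lemma qd_mem (x : Matrix (Fin n) (Fin n) ℝ) (u w : Fin n → ℂ) : qd x u w ∈ mx x := by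
  unfold qd
  apply Ideal.sum_mem
  intro p _
  apply Ideal.sum_mem
  intro q _
  rw [Algebra.smul_def]
  exact Ideal.mul_mem_left _ _ (dl_mem _ _ _)

lemma qd_apply (x : Matrix (Fin n) (Fin n) ℝ) (u w : Fin n → ℂ) (P : Matrix (Fin n) (Fin n) ℝ) :
    fn (qd x u w) P = u ⬝ᵥ (cx P *ᵥ w) - u ⬝ᵥ (cx x *ᵥ w) := by
  rw [← dotProduct_sub, ← Matrix.sub_mulVec, ← cx_sub, ← ev_apply, qd, map_sum]
  simp only [dotProduct, Matrix.mulVec]
  apply Finset.sum_congr rfl
  intro p _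
  rw [map_sum, Finset.mul_sum]
  apply Finset.sum_congr rfl
  intro q _
  rw [map_smul, ev_apply, dl_apply]
  simp only [Matrix.map_apply, Matrix.sub_apply, smul_eq_mul]
  ring

lemma mnr_eq_det (x : Matrix (Fin n) (Fin n) ℝ) (Z : ℕ → Fin n → ℂ) (j : ℕ) :
    mnr Z j = (Matrix.of fun a b : Fin j =>
      algebraMap ℂ (Sm n) (Z a ⬝ᵥ (cx x *ᵥ Z b)) + qd x (Z a) (Z b)).det := by
  apply sm_ext
  intro P
  rw [mnr_apply, ← ev_apply, AlgHom.map_det]
  congr 1
  ext a b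
  change Z a ⬝ᵥ (cx P *ᵥ Z b) = ev P (algebraMap ℂ (Sm n) (Z a ⬝ᵥ (cx x *ᵥ Z b)) + qd x (Z a) (Z b))
  rw [map_add, AlgHom.commutes, ev_apply, qd_apply]
  simp

variable {x : Matrix (Fin n) (Fin n) ℝ} {a b : Fin (kap n k) → Fin n → ℝ} {Z : ℕ → Fin n → ℂ}

lemma Adapted.mnr_mem (h : Adapted (k := k) x a b Z) {j : ℕ} (hj : j ≤ kap n k) :
    mnr Z j - 1 - ∑ c : Fin j, qd x (Z c) (Z c) ∈ mx x ^ 2 := by
  have h1 : (Matrix.of fun a b : Fin j =>
      algebraMap ℂ (Sm n) (Z a ⬝ᵥ (cx x *ᵥ Z b)) + qd x (Z a) (Z b))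
      = 1 + Matrix.of fun a b : Fin j => qd x (Z a) (Z b) := by
    apply Matrix.ext
    intro c d
    have hck : (c : ℕ) < kap n k := c.2.trans_le hj
    have hdk : (d : ℕ) < kap n k := d.2.trans_le hj
    have e1 : cx x *ᵥ Z (d : ℕ) = cv (a ⟨d, hdk⟩) := h.mulVec_Z (t := ⟨d, hdk⟩) (h.xa _) (h.xb _)
    have e2 : Z (c : ℕ) ⬝ᵥ cv (a ⟨d, hdk⟩) = if (⟨c, hck⟩ : Fin (kap n k)) = ⟨d, hdk⟩
          then 1 else 0 := h.Z_dot_a ⟨c, hck⟩ ⟨d, hdk⟩
    rw [Matrix.of_apply, Matrix.add_apply, Matrix.of_apply, e1, e2, Matrix.one_apply]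
    congr 1
    by_cases hcd : c = d
    · subst hcd
      rw [if_pos rfl, if_pos rfl, map_one]
    · rw [if_neg hcd, if_neg, map_zero]
      intro h'
      apply hcd
      have h'' : (c : ℕ) = d := by simpa using h'
      exact Fin.ext h''
  rw [mnr_eq_det x Z j, h1]
  exact det_one_add_mem (mx x) _ fun c d => qd_mem _ _ _

lemma Adapted.mnr_self (h : Adapted (k := k) x a b Z) {j : ℕ} (hj : j ≤ kap n k) :
    fn (mnr Z j) x = 1 := by
  have h1 := h.mnr_mem hj
  have h2 : mnr Z j - 1 - ∑ c : Fin j, qd x (Z c) (Z c) ∈ mx x := Ideal.pow_le_self two_ne_zero h1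
  have h3 : mnr Z j - 1 ∈ mx x := by
    have : mnr Z j - 1 = (mnr Z j - 1 - ∑ c : Fin j, qd x (Z c) (Z c))
      + ∑ c : Fin j, qd x (Z c) (Z c) := by ring
    rw [this]
    exact Ideal.add_mem _ h2 (Ideal.sum_mem _ fun c _ => qd_mem _ _ _)
  rw [mem_mx] at h3
  have h4 : fn (mnr Z j - 1) x = fn (mnr Z j) x - 1 := rfl
  rw [h4] at h3
  exact sub_eq_zero.1 h3

lemma qd_add_left (x : Matrix (Fin n) (Fin n) ℝ) (u v w : Fin n → ℂ) :
    qd x (u + v) w = qd x u w + qd x v w := by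
  apply sm_ext; intro P
  have : fn (qd x u w + qd x v w) P = fn (qd x u w) P + fn (qd x v w) P := rfl
  rw [this, qd_apply, qd_apply, qd_apply, add_dotProduct, add_dotProduct]; ring

lemma qd_cv (x : Matrix (Fin n) (Fin n) ℝ) (u w : Fin n → ℝ) :
    qd x (cv u) (cv w) = lin x (vecMulVec u w) := by
  unfold qd lin
  apply Finset.sum_congr rfl; intro p _
  apply Finset.sum_congr rfl; intro q _
  rw [Matrix.vecMulVec_apply]
  simp [cv]

lemma qd_frame (x : Matrix (Fin n) (Fin n) ℝ) (u w : Fin n → ℝ) :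
    qd x (cv u + Complex.I • cv w) (cv u + Complex.I • cv w)
      = lin x (vecMulVec u u) - lin x (vecMulVec w w)
        + Complex.I • (lin x (vecMulVec u w) + lin x (vecMulVec w u)) := by
  rw [← qd_cv, ← qd_cv, ← qd_cv, ← qd_cv]
  apply sm_ext; intro P
  have : fn (qd x (cv u) (cv u) - qd x (cv w) (cv w)
      + Complex.I • (qd x (cv u) (cv w) + qd x (cv w) (cv u))) P
      = fn (qd x (cv u) (cv u)) P - fn (qd x (cv w) (cv w)) P
        + Complex.I * (fn (qd x (cv u) (cv w)) P + fn (qd x (cv w) (cv u)) P) := rfl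
  rw [this]
  simp only [qd_apply, Matrix.mulVec_add, Matrix.mulVec_smul, add_dotProduct, dotProduct_add,
    smul_dotProduct, dotProduct_smul, smul_eq_mul]
  linear_combination ((cv w ⬝ᵥ (cx P *ᵥ cv w)) - (cv w ⬝ᵥ (cx x *ᵥ cv w))) * Complex.I_mul_I

lemma mulR {x : Matrix (Fin n) (Fin n) ℝ} (hxT : xᵀ = x) (u w : Fin n → ℝ) :
    x * vecMulVec u w * (1 - x) = vecMulVec (x *ᵥ u) (w - x *ᵥ w) := by
  rw [Matrix.mul_vecMulVec, Matrix.vecMulVec_mul, Matrix.vecMul_sub, Matrix.vecMul_one,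
    ← Matrix.mulVec_transpose, hxT]

lemma lin_zero (x : Matrix (Fin n) (Fin n) ℝ) : lin x 0 = 0 := by
  unfold lin; simp

lemma Adapted.lin_aa (h : Adapted (k := k) x a b Z) (hx : x ∈ Gr n k) (s : Fin (kap n k)) :
    lin x (vecMulVec (a s) (a s)) ∈ jd n k x := by
  have h1 := lin_sub_mem hx (vecMulVec (a s) (a s))
  rw [Matrix.transpose_vecMulVec, mul_add, add_mul, mulR hx.1, h.xa, sub_self] at h1
  have h2 : vecMulVec (a s) (0 : Fin n → ℝ) = 0 := by ext p q; simp [vecMulVec_apply]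
  rw [h2, add_zero, lin_zero, sub_zero] at h1
  exact h1

lemma Adapted.lin_bb (h : Adapted (k := k) x a b Z) (hx : x ∈ Gr n k) (s : Fin (kap n k)) :
    lin x (vecMulVec (b s) (b s)) ∈ jd n k x := by
  have h1 := lin_sub_mem hx (vecMulVec (b s) (b s))
  rw [Matrix.transpose_vecMulVec, mul_add, add_mul, mulR hx.1, h.xb] at h1
  have h2 : vecMulVec (0 : Fin n → ℝ) (b s - 0) = 0 := by ext p q; simp [vecMulVec_apply]
  rw [h2, add_zero, lin_zero, sub_zero] at h1
  exact h1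

lemma Adapted.lin_ba (h : Adapted (k := k) x a b Z) (hx : x ∈ Gr n k) (s : Fin (kap n k)) :
    lin x (vecMulVec (b s) (a s)) - lin x (vecMulVec (a s) (b s)) ∈ jd n k x := by
  have h1 := lin_sub_mem hx (vecMulVec (b s) (a s))
  rw [Matrix.transpose_vecMulVec, mul_add, add_mul, mulR hx.1, mulR hx.1, h.xb, h.xa, sub_self,
    sub_zero] at h1
  have h2 : vecMulVec (0 : Fin n → ℝ) (0 : Fin n → ℝ) = 0 := by ext p q; simp [vecMulVec_apply]
  rw [h2, zero_add] at h1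
  exact h1

lemma Adapted.qd_mem_jd (h : Adapted (k := k) x a b Z) (hx : x ∈ Gr n k) (s : Fin (kap n k)) :
    qd x (Z s) (Z s) - (2 * Complex.I) • lin x (vecMulVec (a s) (b s)) ∈ jd n k x := by
  rw [h.Zeq s, qd_frame]
  have e1 : lin x (vecMulVec (a s) (a s)) - lin x (vecMulVec (b s) (b s))
        + Complex.I • (lin x (vecMulVec (a s) (b s)) + lin x (vecMulVec (b s) (a s)))
        - (2 * Complex.I) • lin x (vecMulVec (a s) (b s))
      = lin x (vecMulVec (a s) (a s)) - lin x (vecMulVec (b s) (b s))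
        + algebraMap ℂ (Sm n) Complex.I
          * (lin x (vecMulVec (b s) (a s)) - lin x (vecMulVec (a s) (b s))) := by
    simp only [Algebra.smul_def, map_mul, map_ofNat]
    ring
  rw [e1]
  apply Ideal.add_mem
  · exact Ideal.sub_mem _ (h.lin_aa hx s) (h.lin_bb hx s)
  · exact Ideal.mul_mem_left _ _ (h.lin_ba hx s)

lemma Adapted.step (h : Adapted (k := k) x a b Z) (hx : x ∈ Gr n k) (s : Fin (kap n k)) :
    mnr Z (s + 1) - mnr Z s - (2 * Complex.I) • lin x (vecMulVec (a s) (b s)) ∈ jd n k x := by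
  have h1 := h.mnr_mem (j := s + 1) s.2
  have h2 := h.mnr_mem (j := s) s.2.le
  rw [Fin.sum_univ_castSucc] at h1
  simp only [Fin.val_castSucc, Fin.val_last] at h1
  have h3 : mnr Z (s + 1) - mnr Z s - (2 * Complex.I) • lin x (vecMulVec (a s) (b s))
      = ((mnr Z (s + 1) - 1 - (∑ c : Fin s, qd x (Z c) (Z c) + qd x (Z s) (Z s)))
        - (mnr Z s - 1 - ∑ c : Fin s, qd x (Z c) (Z c)))
        + (qd x (Z s) (Z s) - (2 * Complex.I) • lin x (vecMulVec (a s) (b s))) := by ring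
  rw [h3]
  exact Ideal.add_mem _ (Ideal.mem_sup_left (Ideal.sub_mem _ h1 h2)) (h.qd_mem_jd hx s)

/-- the polynomial in the minors whose symbol is a prescribed off-diagonal form -/
noncomputable def psi (Z : ℕ → Fin n → ℂ) (σ : Fin (kap n k) → ℝ) : Sm n :=
  ∑ s : Fin (kap n k), ((σ s : ℂ) / (2 * Complex.I)) • (mnr Z (s + 1) - mnr Z s)

lemma Adapted.psi_mem (h : Adapted (k := k) x a b Z) (σ : Fin (kap n k) → ℝ) :
    psi Z σ ∈ mx x := by
  unfold psi
  apply Ideal.sum_mem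
  intro s _
  rw [Algebra.smul_def]
  apply Ideal.mul_mem_left
  rw [mem_mx]
  have h4 : fn (mnr Z (s + 1) - mnr Z s) x = fn (mnr Z (s + 1)) x - fn (mnr Z s) x := rfl
  rw [h4, h.mnr_self (j := s + 1) s.2, h.mnr_self (j := s) s.2.le, sub_self]

lemma lin_sum_smul {ι : Type*} (x : Matrix (Fin n) (Fin n) ℝ) (t : Finset ι) (σ : ι → ℝ)
    (M : ι → Matrix (Fin n) (Fin n) ℝ) :
    lin x (∑ s ∈ t, σ s • M s) = ∑ s ∈ t, (σ s : ℂ) • lin x (M s) := by
  classical
  induction t using Finset.induction_on with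
  | empty => simp [lin_zero]
  | insert i t hi ih => rw [Finset.sum_insert hi, Finset.sum_insert hi, lin_add, lin_smul, ih]

lemma Adapted.psi_sub (h : Adapted (k := k) x a b Z) (hx : x ∈ Gr n k)
    (σ : Fin (kap n k) → ℝ) (B : Matrix (Fin n) (Fin n) ℝ)
    (hB : x * (B + Bᵀ) * (1 - x) = ∑ s, σ s • vecMulVec (a s) (b s)) :
    psi Z σ - lin x B ∈ jd n k x := by
  have h1 := lin_sub_mem hx B
  rw [hB, lin_sum_smul] at h1
  have h2 : psi Z σ - lin x B
      = ∑ s : Fin (kap n k), algebraMap ℂ (Sm n) ((σ s : ℂ) / (2 * Complex.I)) *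
          (mnr Z (s + 1) - mnr Z s - (2 * Complex.I) • lin x (vecMulVec (a s) (b s)))
        - (lin x B - ∑ s, (σ s : ℂ) • lin x (vecMulVec (a s) (b s))) := by
    have h3 : ∑ s : Fin (kap n k), algebraMap ℂ (Sm n) ((σ s : ℂ) / (2 * Complex.I)) *
          (mnr Z (s + 1) - mnr Z s - (2 * Complex.I) • lin x (vecMulVec (a s) (b s)))
        = psi Z σ - ∑ s, (σ s : ℂ) • lin x (vecMulVec (a s) (b s)) := by
      unfold psi
      rw [← Finset.sum_sub_distrib]
      apply Finset.sum_congr rfl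
      intro s _
      rw [mul_sub, ← Algebra.smul_def, ← Algebra.smul_def, smul_smul]
      congr 2
      have := Complex.I_ne_zero
      field_simp
    rw [h3]
    ring
  rw [h2]
  apply Ideal.sub_mem _ _ h1
  apply Ideal.sum_mem
  intro s _
  exact Ideal.mul_mem_left _ _ (h.step hx s)

end Pool.Agent.H.MP_57d9fd_an
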