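import Mathlib
import Pool.Agent.H.MP_57d9fd_an.Expand

/-! Nonvanishing of a finitely supported distribution on the translates of the highest weight
functions. -/

open scoped Matrix.Norms.Elementwise ContDiff Topology
open Matrix

namespace Pool.Agent.H.MP_57d9fd_an

variable {n k : ℕ}

/-- the frame moved by `g` -/
noncomputable def fr (g : Matrix (Fin n) (Fin n) ℝ) : ℕ → Fin n → ℂ := fun s => cx g *ᵥ zv n s

lemma act_hz {κ : ℕ} (g : Matrix (Fin n) (Fin n) ℝ) (m : Fin κ → ℕ) :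
    act g (hz (zv n) m) = hz (fr g) m := by
  apply sm_ext
  intro P
  have h1 : fn (act g (hz (zv n) m)) P = fn (hz (zv n) m) (gᵀ * P * g) := rfl
  rw [h1, hz_apply, hz_apply]
  unfold hc
  apply Finset.prod_congr rfl
  intro j _
  congr 2
  ext c d
  change zv n c ⬝ᵥ (cx (gᵀ * P * g) *ᵥ zv n d) = (cx g *ᵥ zv n c) ⬝ᵥ (cx P *ᵥ (cx g *ᵥ zv n d))
  rw [cx_mul, cx_mul, cx_transpose, ← Matrix.mulVec_mulVec, ← Matrix.mulVec_mulVec,
    Matrix.dotProduct_mulVec, Matrix.vecMul_transpose]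

lemma hz_mul {κ : ℕ} (Z : ℕ → Fin n → ℂ) (m m' : Fin κ → ℕ) :
    hz Z m * hz Z m' = hz Z (m + m') := by
  unfold hz
  rw [← Finset.prod_mul_distrib]
  exact Finset.prod_congr rfl fun j _ => by rw [Pi.add_apply, pow_add]

lemma hz_zero {κ : ℕ} (Z : ℕ → Fin n → ℂ) : hz Z (0 : Fin κ → ℕ) = 1 := by
  unfold hz; simp

lemma hz_single {κ : ℕ} (Z : ℕ → Fin n → ℂ) (j : Fin κ) : hz Z (Pi.single j 1) = mnr Z (j + 1) := by
  unfold hz
  rw [Finset.prod_eq_single j]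
  · simp
  · intro i _ hij
    rw [Pi.single_eq_of_ne hij, pow_zero]
  · intro h; exact absurd (Finset.mem_univ _) h

/-- the algebra generated by the minors -/
noncomputable def alg (κ : ℕ) (Z : ℕ → Fin n → ℂ) : Subalgebra ℂ (Sm n) :=
  Algebra.adjoin ℂ (Set.range fun j : Fin κ => mnr Z (j + 1))

lemma alg_le {κ : ℕ} {Z : ℕ → Fin n → ℂ} {f : Sm n} (hf : f ∈ alg κ Z) :
    f ∈ Submodule.span ℂ (Set.range (hz (κ := κ) Z)) := by
  have h1 : f ∈ (alg κ Z).toSubmodule := hf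
  rw [alg, Algebra.adjoin_eq_span] at h1
  refine Submodule.span_mono ?_ h1
  intro y hy
  induction hy using Submonoid.closure_induction with
  | mem z hz' =>
    obtain ⟨j, rfl⟩ := hz'
    exact ⟨Pi.single j 1, hz_single Z j⟩
  | one => exact ⟨0, hz_zero Z⟩
  | mul u v _ _ hu hv =>
    obtain ⟨m, rfl⟩ := hu
    obtain ⟨m', rfl⟩ := hv
    exact ⟨m + m', (hz_mul Z m m').symm⟩

lemma mnr_mem_alg {κ : ℕ} (Z : ℕ → Fin n → ℂ) {s : ℕ} (hs : s ≤ κ) : mnr Z s ∈ alg κ Z := by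
  rcases Nat.eq_zero_or_pos s with rfl | hpos
  · have : mnr Z 0 = (1 : Sm n) := by
      apply sm_ext
      intro P
      rw [mnr_apply, Matrix.det_fin_zero]
      rfl
    rw [this]
    exact one_mem _
  · apply Algebra.subset_adjoin
    refine ⟨⟨s - 1, by omega⟩, ?_⟩
    change mnr Z (s - 1 + 1) = mnr Z s
    rw [Nat.sub_add_cancel hpos]

lemma psi_mem_alg (Z : ℕ → Fin n → ℂ) (σ : Fin (kap n k) → ℝ) : psi Z σ ∈ alg (kap n k) Z := by
  unfold psi
  apply sum_mem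
  intro s _
  apply Subalgebra.smul_mem
  exact sub_mem (mnr_mem_alg Z s.2) (mnr_mem_alg Z s.2.le)

/-- a functional nonzero on `D^A f` with `f` in the algebra is nonzero on some `D^m`, `m ≥ A` -/
lemma exists_of_alg {κ : ℕ} {Z : ℕ → Fin n → ℂ} (L : Sm n →ₗ[ℂ] ℂ) (A : ℕ) {f : Sm n}
    (hf : f ∈ alg κ Z) (h : L (hz Z (fun _ : Fin κ => A) * f) ≠ 0) :
    ∃ m : Fin κ → ℕ, (∀ j, A ≤ m j) ∧ L (hz Z m) ≠ 0 := by
  by_contra hcon
  push Not at hcon
  apply h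
  have h1 := alg_le hf
  clear h hf
  induction h1 using Submodule.span_induction with
  | mem y hy =>
    obtain ⟨m, rfl⟩ := hy
    rw [hz_mul]
    exact hcon _ fun j => by simp
  | zero => simp
  | add u v _ _ hu hv => rw [mul_add, map_add, hu, hv, add_zero]
  | smul c u _ hu => rw [mul_smul_comm, map_smul, hu, smul_zero]

lemma pow_sub_pow_mem {x : Matrix (Fin n) (Fin n) ℝ} {u v : Sm n} (hu : u ∈ mx x) (hv : v ∈ mx x)
    (huv : u - v ∈ jd n k x) (d : ℕ) : u ^ d - v ^ d ∈ mx x ^ (d + 1) ⊔ vg n k := by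
  rcases Nat.eq_zero_or_pos d with rfl | hd
  · simp
  rw [← (Commute.all u v).geom_sum₂_mul]
  have h1 : ∑ i ∈ Finset.range d, u ^ i * v ^ (d - 1 - i) ∈ mx x ^ (d - 1) := by
    apply Ideal.sum_mem
    intro i hi
    have hi' := Finset.mem_range.1 hi
    have h2 : u ^ i * v ^ (d - 1 - i) ∈ mx x ^ i * mx x ^ (d - 1 - i) :=
      Ideal.mul_mem_mul (Ideal.pow_mem_pow hu i) (Ideal.pow_mem_pow hv _)
    rw [← pow_add] at h2
    have h3 : i + (d - 1 - i) = d - 1 := by omega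
    rwa [h3] at h2
  have h2 : (∑ i ∈ Finset.range d, u ^ i * v ^ (d - 1 - i)) * (u - v)
      ∈ mx x ^ (d - 1) * jd n k x := Ideal.mul_mem_mul h1 huv
  refine (show mx x ^ (d - 1) * jd n k x ≤ mx x ^ (d + 1) ⊔ vg n k from ?_) h2
  unfold jd
  rw [Ideal.mul_sup, ← pow_add]
  have h3 : d - 1 + 2 = d + 1 := by omega
  rw [h3]
  exact sup_le_sup_left Ideal.mul_le_right _

lemma fr_apply (g : Matrix (Fin n) (Fin n) ℝ) {s : ℕ} (hs : 2 * s + 1 < n) (p : Fin n) :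
    fr g s p = (g p ⟨2 * s, by omega⟩ : ℂ) + Complex.I * (g p ⟨2 * s + 1, hs⟩ : ℂ) := by
  change (fun q => cx g p q) ⬝ᵥ zv n s = _
  rw [dotProduct_comm, zv_dot hs]
  rfl

theorem nonvanish (hk : k ≤ n) (T : GrDistribution n k) (F : Finset (Matrix (Fin n) (Fin n) ℝ))
    (hFG : ∀ x ∈ F, x ∈ Gr n k) (hF : T.SupportedIn F) (hT : T.toFun ≠ 0) :
    ∃ g ∈ Matrix.orthogonalGroup (Fin n) ℝ, ∀ A : ℕ, ∃ m : Fin (kap n k) → ℕ,
      (∀ j, A ≤ m j) ∧ T.toFun (hz (fr g) m) ≠ 0 := by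
  classical
  obtain ⟨N, _, x₁, hx₁, E₁, d, hkill, ⟨B, hB⟩, hloc⟩ := exists_symbol T F hF hT
  have hx : x₁ ∈ Gr n k := hFG x₁ hx₁
  obtain ⟨g, hg, a, b, σ, hga, hgb, hxa, hxb, haa, hbb, hab, hC⟩ := exists_frame hk hx (B + Bᵀ)
  refine ⟨g, hg, ?_⟩
  set Z := fr g with hZ
  have had : Adapted (k := k) x₁ a b Z := by
    refine ⟨hxa, hxb, haa, hbb, hab, ?_⟩
    intro s
    have hs : 2 * (s : ℕ) + 1 < n := (po hk s).2
    ext p
    rw [hZ, fr_apply g hs]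
    have e1 : g p ⟨2 * (s : ℕ), by omega⟩ = a s p := hga s p
    have e2 : g p ⟨2 * (s : ℕ) + 1, hs⟩ = b s p := hgb s p
    rw [e1, e2]
    rfl
  -- separation functions
  have hsep : ∀ y : Matrix (Fin n) (Fin n) ℝ, ∃ e : Sm n, e ∈ alg (kap n k) Z ∧ fn e x₁ = 1 ∧
      (y ∈ F → y ≠ x₁ → e ∈ mx y) := by
    intro y
    by_cases hy : y ∈ F ∧ y ≠ x₁
    · have h1 : ∃ j : Fin (kap n k), fn (mnr Z (j + 1)) y ≠ 1 := by
        by_contra hcon
        push Not at hcon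
        exact hy.2 (had.sep hk hx (hFG y hy.1) hcon)
      obtain ⟨j, hj⟩ := h1
      set w := fn (mnr Z (j + 1)) y with hw
      refine ⟨(1 - w)⁻¹ • (mnr Z (j + 1) - algebraMap ℂ (Sm n) w), ?_, ?_, ?_⟩
      · apply Subalgebra.smul_mem
        exact sub_mem (mnr_mem_alg Z j.2) (Subalgebra.algebraMap_mem _ _)
      · have e1 : fn ((1 - w)⁻¹ • (mnr Z (j + 1) - algebraMap ℂ (Sm n) w)) x₁
            = (1 - w)⁻¹ * (fn (mnr Z (j + 1)) x₁ - w) := rfl
        rw [e1, had.mnr_self (j := j + 1) j.2]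
        exact inv_mul_cancel₀ (sub_ne_zero.2 (Ne.symm hj))
      · intro _ _
        rw [mem_mx]
        have e1 : fn ((1 - w)⁻¹ • (mnr Z (j + 1) - algebraMap ℂ (Sm n) w)) y
            = (1 - w)⁻¹ * (fn (mnr Z (j + 1)) y - w) := rfl
        rw [e1, ← hw, sub_self, mul_zero]
    · refine ⟨1, one_mem _, rfl, ?_⟩
      intro h1 h2
      exact absurd ⟨h1, h2⟩ hy
  choose e he1 he2 he3 using hsep
  let ee : Sm n := ∏ y ∈ F, e y ^ (N + 1)
  have hee1 : ee ∈ alg (kap n k) Z := prod_mem fun y _ => pow_mem (he1 y) _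
  have hee2 : fn ee x₁ = 1 := by
    rw [← ev_apply]
    simp only [ee, map_prod, map_pow, ev_apply, he2, one_pow, Finset.prod_const_one]
  have hee3 : ∀ y ∈ F, y ≠ x₁ → ee ∈ mx y ^ (N + 1) := by
    intro y hy hne
    simp only [ee]
    rw [← Finset.mul_prod_erase _ _ hy]
    exact Ideal.mul_mem_right _ _ (Ideal.pow_mem_pow (he3 y hy hne) _)
  intro A
  apply exists_of_alg T.toFun A (f := ee * psi Z σ ^ d) (mul_mem hee1 (pow_mem (psi_mem_alg Z σ) _))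
  have h1 : T.toFun (hz Z (fun _ : Fin (kap n k) => A) * (ee * psi Z σ ^ d))
      = T.toFun (E₁ * (ee * (hz Z (fun _ : Fin (kap n k) => A) * psi Z σ ^ d))) := by
    rw [← hloc ee _ hee3]
    congr 1
    ring
  rw [h1]
  have h2 : E₁ * (ee * (hz Z (fun _ : Fin (kap n k) => A) * psi Z σ ^ d))
      = E₁ * ((ee * hz Z (fun _ : Fin (kap n k) => A) - 1) * psi Z σ ^ d)
        + E₁ * (psi Z σ ^ d - lin x₁ B ^ d) + E₁ * lin x₁ B ^ d := by ring
  have hhz : fn (hz Z (fun _ : Fin (kap n k) => A)) x₁ = 1 := by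
    rw [← ev_apply]
    unfold hz
    simp only [map_prod, map_pow, ev_apply]
    apply Finset.prod_eq_one
    intro j _
    rw [had.mnr_self (j := j + 1) j.2, one_pow]
  have h3 : T.toFun (E₁ * ((ee * hz Z (fun _ : Fin (kap n k) => A) - 1) * psi Z σ ^ d)) = 0 := by
    apply hkill
    rw [pow_succ']
    apply Ideal.mul_mem_mul
    · rw [mem_mx]
      have : fn (ee * hz Z (fun _ : Fin (kap n k) => A) - 1) x₁
          = fn ee x₁ * fn (hz Z (fun _ : Fin (kap n k) => A)) x₁ - 1 := rfl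
      rw [this, hee2, hhz]
      ring
    · exact Ideal.pow_mem_pow (had.psi_mem σ) _
  have h4 : T.toFun (E₁ * (psi Z σ ^ d - lin x₁ B ^ d)) = 0 := by
    have h5 := pow_sub_pow_mem (had.psi_mem σ) (lin_mem x₁ B) (had.psi_sub hx σ B hC) d
    obtain ⟨u, hu, v, hv, huv⟩ := Submodule.mem_sup.1 h5
    rw [← huv, mul_add, map_add, hkill u hu, zero_add]
    apply T.eq_zero_of_restrict
    intro P hP
    have : ((E₁ * v : Sm n) : Matrix (Fin n) (Fin n) ℝ → ℂ) P = fn E₁ P * fn v P := rfl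
    rw [this, hv P hP, mul_zero]
  rw [h2, map_add, map_add, h3, h4, zero_add, zero_add]
  exact hB

end Pool.Agent.H.MP_57d9fd_an
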