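import Mathlib

/-! Multi-indexed sequences satisfying linear recurrences in each direction. -/

namespace Pool.Agent.H.MP_57d9fd_an

open Finset

lemma rec_one {f : ℕ → ℂ} {q : Polynomial ℂ} (hq : q ≠ 0) {R : ℕ} (hR : q.natDegree ≤ R)
    (hrec : ∀ m, ∑ i ∈ range (R + 1), q.coeff i * f (m + i) = 0) {m₀ : ℕ} (hm₀ : R ≤ m₀)
    (h0 : ∀ m, m₀ ≤ m → m < m₀ + R → f m = 0) : ∀ m, R ≤ m → f m = 0 := by
  -- forward
  have fwd : ∀ m, m₀ ≤ m → f m = 0 := by
    intro m
    induction m using Nat.strong_induction_on with
    | _ m ih =>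
    intro hm
    rcases lt_or_ge m (m₀ + R) with hlt | hge
    · exact h0 m hm hlt
    set D := q.natDegree with hD
    have h1 := hrec (m - D)
    rw [Finset.sum_eq_single D] at h1
    · have h2 : m - D + D = m := by omega
      rw [h2] at h1
      have h3 : q.coeff D ≠ 0 := by
        rw [hD]; exact Polynomial.leadingCoeff_ne_zero.2 hq
      exact (mul_eq_zero.1 h1).resolve_left h3
    · intro i _ hi
      rcases lt_or_gt_of_ne hi with hi | hi
      · rw [ih (m - D + i) (by omega) (by omega), mul_zero]
      · rw [Polynomial.coeff_eq_zero_of_natDegree_lt hi, zero_mul]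
    · intro h; exact absurd (mem_range.2 (by omega)) h
  -- backward
  have bwd : ∀ e m, m + e = m₀ → R ≤ m → f m = 0 := by
    intro e
    induction e using Nat.strong_induction_on with
    | _ e ih =>
    intro m hme hm
    set a := q.natTrailingDegree with ha
    have haD : a ≤ q.natDegree := Polynomial.natTrailingDegree_le_natDegree q
    have h1 := hrec (m - a)
    rw [Finset.sum_eq_single a] at h1
    · have h2 : m - a + a = m := by omega
      rw [h2] at h1
      have h3 : q.coeff a ≠ 0 := by
        rw [ha]; exact Polynomial.trailingCoeff_nonzero_iff_nonzero.2 hq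
      exact (mul_eq_zero.1 h1).resolve_left h3
    · intro i _ hi
      rcases lt_or_gt_of_ne hi with hi | hi
      · rw [Polynomial.coeff_eq_zero_of_lt_natTrailingDegree hi, zero_mul]
      · rcases le_or_gt m₀ (m - a + i) with h | h
        · rw [fwd _ h, mul_zero]
        · rw [ih (m₀ - (m - a + i)) (by omega) (m - a + i) (by omega) (by omega), mul_zero]
    · intro h; exact absurd (mem_range.2 (by omega)) h
  intro m hm
  rcases le_or_gt m₀ m with h | h
  · exact fwd m h
  · exact bwd (m₀ - m) m (by omega) hm

lemma rec_multi {κ : ℕ} {F : (Fin κ → ℕ) → ℂ} {q : Fin κ → Polynomial ℂ} (hq : ∀ j, q j ≠ 0)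
    {R : ℕ} (hR : ∀ j, (q j).natDegree ≤ R)
    (hrec : ∀ j m, ∑ i ∈ range (R + 1), (q j).coeff i * F (Function.update m j (m j + i)) = 0)
    {m₀ : Fin κ → ℕ} (hm₀ : ∀ j, R ≤ m₀ j)
    (h0 : ∀ m, (∀ j, m₀ j ≤ m j ∧ m j < m₀ j + R) → F m = 0) :
    ∀ m, (∀ j, R ≤ m j) → F m = 0 := by
  have key : ∀ J : Finset (Fin κ), ∀ m, (∀ j ∈ J, R ≤ m j) →
      (∀ j, j ∉ J → m₀ j ≤ m j ∧ m j < m₀ j + R) → F m = 0 := by
    intro J
    induction J using Finset.induction_on with
    | empty =>
      intro m _ h
      exact h0 m fun j => h j (by simp)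
    | insert j J hj ih =>
      intro m hm1 hm2
      have h1 := rec_one (f := fun t => F (Function.update m j t)) (hq j) (hR j) (fun t => by
        have := hrec j (Function.update m j t)
        simpa using this) (hm₀ j) (fun t ht1 ht2 => by
          apply ih
          · intro i hi
            have hij : i ≠ j := fun h => hj (h ▸ hi)
            rw [Function.update_of_ne hij]
            exact hm1 i (Finset.mem_insert_of_mem hi)
          · intro i hi
            rcases eq_or_ne i j with rfl | hij
            · rw [Function.update_self]; exact ⟨ht1, ht2⟩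
            · rw [Function.update_of_ne hij]
              exact hm2 i (by simp [hij, hi])) (m j) (hm1 j (Finset.mem_insert_self _ _))
      simpa using h1
  intro m hm
  exact key Finset.univ m (fun j _ => hm j) (fun j hj => absurd (Finset.mem_univ j) hj)

end Pool.Agent.H.MP_57d9fd_an
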