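import Mathlib
import Pool.Agent.H.MP_57d9fd_an.NonVan
import Pool.Agent.H.MP_57d9fd_an.Rec
import Pool.Agent.H.MP_57d9fd_an.Count

/-! The Fourier support of a finitely supported distribution is syndetic. -/

open scoped Matrix.Norms.Elementwise ContDiff Topology
open Matrix

namespace Pool.Agent.H.MP_57d9fd_an

variable {n k : ℕ}

/-- the minor raised to powers: moving in the direction `j` -/
lemma pow_mul_hz {κ : ℕ} (Z : ℕ → Fin n → ℂ) (m : Fin κ → ℕ) (j : Fin κ) (i : ℕ) :
    mnr Z (j + 1) ^ i * hz Z m = hz Z (Function.update m j (m j + i)) := by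
  unfold hz
  rw [← Finset.mul_prod_erase _ _ (Finset.mem_univ j),
    ← Finset.mul_prod_erase (Finset.univ : Finset (Fin κ))
      (fun l : Fin κ => mnr Z ((l : ℕ) + 1) ^ (Function.update m j (m j + i)) l)
      (Finset.mem_univ j),
    Function.update_self, ← mul_assoc, ← pow_add, add_comm i]
  congr 1
  apply Finset.prod_congr rfl
  intro l hl
  rw [Function.update_of_ne (Finset.ne_of_mem_erase hl)]

theorem exists_box (hk : k ≤ n) (T : GrDistribution n k) (F : Finset (Matrix (Fin n) (Fin n) ℝ))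
    (hFG : ∀ x ∈ F, x ∈ Gr n k) (hF : T.SupportedIn F) (hT : T.toFun ≠ 0) :
    ∃ g ∈ Matrix.orthogonalGroup (Fin n) ℝ, ∃ L : ℕ, ∀ m₀ : Fin (kap n k) → ℕ,
      ∃ m : Fin (kap n k) → ℕ, (∀ j, m₀ j ≤ m j ∧ m j ≤ m₀ j + L) ∧ T.toFun (hz (fr g) m) ≠ 0 := by
  classical
  obtain ⟨N, hN⟩ := kill_flat T F hF
  obtain ⟨g, hg, hnon⟩ := nonvanish hk T F hFG hF hT
  set Z := fr g with hZ
  let q : Fin (kap n k) → Polynomial ℂ := fun j =>
    ∏ x ∈ F, (Polynomial.X - Polynomial.C (fn (mnr Z (j + 1)) x)) ^ (N + 1)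
  let R : ℕ := F.card * (N + 1)
  have hqm : ∀ j, (q j).Monic := fun j =>
    Polynomial.monic_prod_of_monic _ _ fun x _ => (Polynomial.monic_X_sub_C _).pow _
  have hq0 : ∀ j, q j ≠ 0 := fun j => (hqm j).ne_zero
  have hqd : ∀ j, (q j).natDegree ≤ R := by
    intro j
    simp only [q, R]
    rw [Polynomial.natDegree_prod_of_monic _ _ fun x _ => (Polynomial.monic_X_sub_C _).pow _]
    have : ∀ x ∈ F, ((Polynomial.X - Polynomial.C (fn (mnr Z (j + 1)) x)) ^ (N + 1)).natDegree
        = N + 1 := by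
      intro x _
      rw [(Polynomial.monic_X_sub_C _).natDegree_pow, Polynomial.natDegree_X_sub_C, mul_one]
    rw [Finset.sum_congr rfl this, Finset.sum_const, smul_eq_mul]
  have hrec : ∀ j m, ∑ i ∈ Finset.range (R + 1), (q j).coeff i *
      T.toFun (hz Z (Function.update m j (m j + i))) = 0 := by
    intro j m
    have h1 : T.toFun (Polynomial.aeval (mnr Z (j + 1)) (q j) * hz Z m) = 0 := by
      apply hN
      intro x hx
      apply flat_mul_right
      apply flat_of_mem_pow
      simp only [q]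
      rw [map_prod, ← Finset.mul_prod_erase _ _ hx]
      apply Ideal.mul_mem_right
      rw [map_pow]
      apply Ideal.pow_mem_pow
      rw [map_sub, Polynomial.aeval_X, Polynomial.aeval_C, mem_mx]
      have : fn (mnr Z (j + 1) - algebraMap ℂ (Sm n) (fn (mnr Z (j + 1)) x)) x
          = fn (mnr Z (j + 1)) x - fn (mnr Z (j + 1)) x := rfl
      rw [this, sub_self]
    rw [Polynomial.aeval_eq_sum_range' (Nat.lt_succ_of_le (hqd j)), Finset.sum_mul, map_sum] at h1
    rw [← h1]
    apply Finset.sum_congr rfl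
    intro i _
    rw [smul_mul_assoc, map_smul, smul_eq_mul, pow_mul_hz]
  refine ⟨g, hg, 2 * R, fun m₀ => ?_⟩
  by_contra hcon
  push Not at hcon
  obtain ⟨m, hm1, hm2⟩ := hnon R
  apply hm2
  apply rec_multi (F := fun m => T.toFun (hz Z m)) hq0 hqd hrec (m₀ := fun j => m₀ j + R)
    (fun j => by simp) _ m hm1
  intro m' hm'
  apply hcon
  intro j
  have := hm' j
  omega

/-- Every point of `Λ_κ` is within a bounded distance of the Fourier support. -/
theorem syndetic (hk : k ≤ n) (T : GrDistribution n k) (F : Finset (Matrix (Fin n) (Fin n) ℝ))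
    (hFG : ∀ x ∈ F, x ∈ Gr n k) (hF : T.SupportedIn F) (hT : T.toFun ≠ 0) :
    ∃ c : ℕ, ∀ lam ∈ Lam (kap n k), ∃ lam' ∈ fourierSupport T,
      ∀ i, lam i ≤ lam' i ∧ lam' i ≤ lam i + c := by
  obtain ⟨g, hg, L, hbox⟩ := exists_box hk T F hFG hF hT
  refine ⟨2 * (kap n k * L), fun lam hlam => ?_⟩
  obtain ⟨m₀, rfl⟩ := lamOf_surj hlam
  obtain ⟨m, hm, hTm⟩ := hbox m₀
  refine ⟨lamOf m, ⟨lamOf_mem m, hz (fr g) m, ?_, hTm⟩, ?_⟩
  · apply Submodule.subset_span
    exact ⟨g, hg, hz (zv n) m, isHighestWeight_hz m, (act_hz g m).symm⟩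
  · intro i
    unfold lamOf
    constructor
    · apply Nat.mul_le_mul_left
      apply Finset.sum_le_sum
      intro j _
      split_ifs
      · exact (hm j).1
      · exact le_rfl
    · rw [← mul_add]
      apply Nat.mul_le_mul_left
      have h1 : ∑ j : Fin (kap n k), (if i ≤ j then m j else 0)
          ≤ ∑ j : Fin (kap n k), ((if i ≤ j then m₀ j else 0) + L) := by
        apply Finset.sum_le_sum
        intro j _
        split_ifs
        · exact (hm j).2
        · exact Nat.zero_le _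
      rw [Finset.sum_add_distrib] at h1
      simpa using h1

end Pool.Agent.H.MP_57d9fd_an
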